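import Pool.Agent.H433.EV.Mult

/-!
The lower bound, with an upper bound of the minors at every archimedean place.
-/

set_option autoImplicit false
set_option linter.unusedSectionVars false
set_option linter.unusedVariables false

open NumberField IsDedekindDomain Finset

namespace Pool.Agent.H433.EV

open Pool.Agent.H433.AC hiding Vf mem_Vf
open Pool.Agent.H433.HG hiding W Single single_units loc_gen loc_simple mu Smp Sng exs sum_exs
  norm_le mp_W_le Wne W_co W_rs norm_dl al_ht pl pl_ne mp_pl mp_single mu_eq_zero prod_up hm_eq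
open Pool.Agent.H433.GT (mi le_mi span_ne le_mi_span log_absNorm mp_mul mp_prod mem_of_mul
  lt_pow le_of_simple log_Nm Nm_inf ht_int)
open Pool.Agent.H433.HD (sz w_pos log_Nm_inf)

variable {g : ℕ} {K : Type} [Field K] [NumberField K]

/-- the bound for the minors -/
def Bd (α β : Fin (2 * g + 1 + 1) → 𝓞 K) (m : Fin (2 * g + 1 + 1) → InfinitePlace K → ℝ) : Prop :=
  (∀ i w, 0 < m i w) ∧ ∀ w : InfinitePlace K, ∀ q ∈ prs (2 * g + 1 + 1),
    w ((mn α β q : 𝓞 K) : K) ≤ m q.1 w * m q.2 w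

variable {α β : Fin (2 * g + 1 + 1) → 𝓞 K} {m : Fin (2 * g + 1 + 1) → InfinitePlace K → ℝ}

theorem prod_up (hM : Bd α β m) (w : InfinitePlace K)
    {s : Finset (Fin (2 * g + 1 + 1) × Fin (2 * g + 1 + 1))} (hs : s ⊆ prs (2 * g + 1 + 1)) :
    w ((∏ q ∈ s, mn α β q : 𝓞 K) : K) ≤ ∏ q ∈ s, (m q.1 w * m q.2 w) := by
  have h1 : ((∏ q ∈ s, mn α β q : 𝓞 K) : K) = ∏ q ∈ s, ((mn α β q : 𝓞 K) : K) := by
    push_cast
    rfl
  rw [h1, map_prod]
  exact prod_le_prod (fun _ _ => apply_nonneg _ _) fun q hq => hM.2 w q (hs hq)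

theorem pm_pos (hM : Bd α β m) (w : InfinitePlace K) : 0 < ∏ i, m i w :=
  prod_pos fun i _ => hM.1 i w

theorem mm_pos (hM : Bd α β m) (w : InfinitePlace K)
    (s : Finset (Fin (2 * g + 1 + 1) × Fin (2 * g + 1 + 1))) :
    0 < ∏ q ∈ s, (m q.1 w * m q.2 w) :=
  prod_pos fun q _ => mul_pos (hM.1 _ w) (hM.1 _ w)

theorem wt_Np (w : InfinitePlace K) {S : Finset (Fin (2 * g + 1))} (hS : S ∈ Sp g) :
    ∏ q ∈ Np (em S), (m q.1 w * m q.2 w) = (∏ i, m i w) ^ (g + 1) :=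
  weight_Np (em S) (card_em hS) (card_emc hS) fun i => m i w

theorem wt_all (w : InfinitePlace K) :
    ∏ q ∈ prs (2 * g + 1 + 1), (m q.1 w * m q.2 w) = (∏ i, m i w) ^ (2 * g + 1) :=
  weight_all fun i => m i w

theorem wt_Gp (hM : Bd α β m) (w : InfinitePlace K) {S : Finset (Fin (2 * g + 1))}
    (hS : S ∈ Sp g) : ∏ q ∈ Gp (em S), (m q.1 w * m q.2 w) = (∏ i, m i w) ^ g := by
  have h1 := prod_GN (em S) fun q => m q.1 w * m q.2 w
  rw [wt_Np w hS, wt_all w] at h1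
  have h2 : (∏ i, m i w) ^ (2 * g + 1) = (∏ i, m i w) ^ g * (∏ i, m i w) ^ (g + 1) := by
    rw [← pow_add]
    congr 1
    omega
  rw [h2] at h1
  exact mul_right_cancel₀ (pow_ne_zero _ (pm_pos hM w).ne') h1

theorem W_up (hM : Bd α β m) (w : InfinitePlace K) {S : Finset (Fin (2 * g + 1))}
    (hS : S ∈ Sp g) : w ((W α β S : 𝓞 K) : K) ≤ (∏ i, m i w) ^ g := by
  rw [← wt_Gp hM w hS]
  exact prod_up hM w (Gp_sub _)

theorem W_low (hM : Bd α β m) (w : InfinitePlace K) {S : Finset (Fin (2 * g + 1))}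
    (hS : S ∈ Sp g) :
    w ((Pn α β : 𝓞 K) : K) ≤ (∏ i, m i w) ^ (g + 1) * w ((W α β S : 𝓞 K) : K) := by
  have h1 : Pn α β = (∏ q ∈ Np (em S), mn α β q) * W α β S := by
    rw [mul_comm]
    exact (prod_GN (em S) fun q => mn α β q).symm
  have h2 := prod_up hM w (Np_sub (em S))
  rw [wt_Np w hS] at h2
  rw [h1]
  push_cast
  rw [map_mul]
  refine mul_le_mul_of_nonneg_right ?_ (apply_nonneg _ _)
  push_cast at h2
  exact h2

/-- the total size -/
noncomputable def tot (m : Fin (2 * g + 1 + 1) → InfinitePlace K → ℝ) : ℝ := ∑ i, sz (m i)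

theorem tot_eq (hM : Bd α β m) :
    tot m = ∑ w : InfinitePlace K, (w.mult : ℝ) * Real.log (∏ i, m i w) := by
  unfold tot HD.sz
  rw [sum_comm]
  refine sum_congr rfl fun w _ => ?_
  rw [← mul_sum, Real.log_prod fun i _ => (hM.1 i w).ne']

/-- the norm of a product of minors -/
theorem norm_sub (h : Dn α β) (hM : Bd α β m)
    {s : Finset (Fin (2 * g + 1 + 1) × Fin (2 * g + 1 + 1))} (hs : s ⊆ prs (2 * g + 1 + 1)) :
    Real.log (Nm (Pn α β)) - ((2 * g + 1) * tot m - ∑ q ∈ s, (sz (m q.1) + sz (m q.2))) ≤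
      Real.log (Nm (∏ q ∈ s, mn α β q)) := by
  have h0 : (∏ q ∈ s, mn α β q : 𝓞 K) ≠ 0 := prod_ne_zero_iff.2 fun q hq => h q (hs hq)
  have e1 : (2 * g + 1) * tot m - ∑ q ∈ s, (sz (m q.1) + sz (m q.2)) =
      ∑ w : InfinitePlace K, (w.mult : ℝ) *
        (Real.log (∏ q ∈ prs (2 * g + 1 + 1) \ s, (m q.1 w * m q.2 w))) := by
    have e2 : ∑ q ∈ s, (sz (m q.1) + sz (m q.2)) =
        ∑ w : InfinitePlace K, (w.mult : ℝ) * Real.log (∏ q ∈ s, (m q.1 w * m q.2 w)) := by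
      unfold HD.sz
      simp only [← sum_add_distrib]
      rw [sum_comm]
      refine sum_congr rfl fun w _ => ?_
      rw [Real.log_prod fun q _ => (mul_pos (hM.1 _ w) (hM.1 _ w)).ne', mul_sum]
      refine sum_congr rfl fun q _ => ?_
      rw [Real.log_mul (hM.1 _ w).ne' (hM.1 _ w).ne', mul_add]
    rw [e2, tot_eq hM, mul_sum, ← sum_sub_distrib]
    refine sum_congr rfl fun w _ => ?_
    have e3 : Real.log (∏ q ∈ prs (2 * g + 1 + 1) \ s, (m q.1 w * m q.2 w)) +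
        Real.log (∏ q ∈ s, (m q.1 w * m q.2 w)) = (2 * g + 1) * Real.log (∏ i, m i w) := by
      rw [← Real.log_mul (mm_pos hM w _).ne' (mm_pos hM w _).ne', prod_sdiff hs, wt_all w,
        Real.log_pow]
      push_cast
      ring
    linear_combination (-(w.mult : ℝ)) * e3
  rw [e1, log_Nm_inf (Pn_ne h), log_Nm_inf h0, ← sum_sub_distrib]
  refine sum_le_sum fun w _ => ?_
  have h1 : Pn α β = (∏ q ∈ prs (2 * g + 1 + 1) \ s, mn α β q) * ∏ q ∈ s, mn α β q := by
    unfold Pn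
    rw [prod_sdiff hs]
  have h2 := prod_up hM w (s := prs (2 * g + 1 + 1) \ s) sdiff_subset
  have h3 : w ((Pn α β : 𝓞 K) : K) ≤ (∏ q ∈ prs (2 * g + 1 + 1) \ s, (m q.1 w * m q.2 w)) *
      w ((∏ q ∈ s, mn α β q : 𝓞 K) : K) := by
    rw [h1]
    push_cast
    rw [map_mul]
    refine mul_le_mul_of_nonneg_right ?_ (apply_nonneg _ _)
    push_cast at h2
    exact h2
  have h4 := Real.log_le_log (w_pos (Pn_ne h)) h3
  rw [Real.log_mul (mm_pos hM w _).ne' (w_pos h0).ne'] at h4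
  have h5 : (0 : ℝ) ≤ w.mult := Nat.cast_nonneg _
  nlinarith [mul_le_mul_of_nonneg_left h4 h5]

/-- the height of the point of the moduli space, upper bound -/
theorem hm_up (h : Dn α β) (hM : Bd α β m) {b : Fin (2 * g + 1) → K}
    (hb : Coord (fun i => (α i : K)) (fun i => (β i : K)) b) :
    ht (fun S => (rs b S)⁻¹) ≤ g * tot m := by
  obtain ⟨S₀, hS₀⟩ := Sp_nonempty g
  obtain ⟨ww, hww⟩ : ∃ ww : Sp g → 𝓞 K, ww = fun S : Sp g => W α β S := ⟨_, rfl⟩
  have ew (S : Sp g) : ww S = W α β S := by rw [hww]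
  have hW0 : ww ⟨S₀, hS₀⟩ ≠ 0 := by
    rw [ew]
    exact Wne h _
  have e0 : (fun S : Sp g => ((W α β S : 𝓞 K) : K)) = fun S => ((ww S : 𝓞 K) : K) := by rw [hww]
  rw [hm_eq h hb, e0, ht_int hW0]
  have h1 : (0 : ℝ) ≤ Real.log (Ideal.absNorm (Ideal.span (Set.range ww))) :=
    Real.log_natCast_nonneg _
  have h3 (w : InfinitePlace K) : 0 < ⨆ i, w ((ww i : 𝓞 K) : K) :=
    lt_of_lt_of_le (w_pos hW0) (le_ciSup (f := fun i => w ((ww i : 𝓞 K) : K))
      (Set.finite_range _).bddAbove ⟨S₀, hS₀⟩)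
  have h4 : Real.log (∏ w : InfinitePlace K, (⨆ i, w ((ww i : 𝓞 K) : K)) ^ w.mult) ≤
      g * tot m := by
    rw [Real.log_prod fun w _ => pow_ne_zero _ (h3 w).ne', tot_eq hM, mul_sum]
    refine sum_le_sum fun w _ => ?_
    have : Nonempty (Sp g) := ⟨⟨S₀, hS₀⟩⟩
    have h5 : (⨆ i, w ((ww i : 𝓞 K) : K)) ≤ (∏ i, m i w) ^ g := by
      refine ciSup_le fun s => ?_
      rw [ew]
      exact W_up hM w s.2
    have h6 := Real.log_le_log (h3 w) h5
    rw [Real.log_pow] at h6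
    rw [Real.log_pow]
    have h7 : (0 : ℝ) ≤ w.mult := Nat.cast_nonneg _
    nlinarith [mul_le_mul_of_nonneg_left h6 h7]
  linarith

/-- the height of the vector of the fourth powers of the theta functions -/
theorem al_low (h : Dn α β) (hM : Bd α β m) {b : Fin (2 * g + 1) → K}
    (hb : Coord (fun i => (α i : K)) (fun i => (β i : K)) b)
    {y : Finset (Fin (2 * g + 1)) → K} (hL : Linear b y)
    {P : HeightOneSpectrum (𝓞 K) → Prop} (hI : ∀ v, P v → Good α β y v)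
    {l : List (Fin (2 * g + 1) × Fin (2 * g + 1))} {B : Finset (Fin (2 * g + 1))} (hl : l ≠ [])
    (hB : Apart l B) (hd : dl y l B ≠ 0)
    {S₁ : Finset (HeightOneSpectrum (𝓞 K))} (hS₁ : ∀ v ∈ S₁, Zero y v) :
    3 * Real.log (Nm (Pn α β)) - exs h P - 2 * exs h (Sng α β) -
      ((g + 1) + 2 * (2 * g + 1)) * tot m + 2 * szl m l -
      l.length * (Module.finrank ℚ K * Real.log 4) + 2 * ∑ v ∈ S₁, Real.log (nv v) ≤
      ht (al b y) := by
  obtain ⟨γ, z, hγ, hz⟩ := exists_int y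
  have hzf : (fun S => (z S : K)) = fun S => γ * y S := funext hz
  obtain ⟨δ, hδ⟩ := dl_int z l B
  have hδ0 : δ ≠ 0 := by
    intro h0
    rw [h0, hzf, dl_smul] at hδ
    simp only [map_zero] at hδ
    exact mul_ne_zero hγ hd hδ.symm
  have hLz : Linear b fun S => (z S : K) := by
    intro U hU
    show (z U : K) = ∑ i ∈ U, _ * (z _ : K)
    rw [hz, hL U hU, mul_sum]
    refine sum_congr rfl fun i _ => ?_
    rw [hz]
    ring
  have hIz (v : HeightOneSpectrum (𝓞 K)) (hv : P v) : Good α β (fun S => (z S : K)) v := by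
    rcases hI v hv with ⟨hs, t, ht⟩ | ⟨hs, hId⟩
    · refine Or.inl ⟨hs, γ * t, fun S hS => ?_⟩
      obtain ⟨q, hq⟩ := ht S hS
      exact ⟨q, by
        show (z S : K) = _
        rw [hz, hq]
        ring⟩
    refine Or.inr ⟨hs, fun p hp hpv => ?_⟩
    obtain ⟨S, hS, hsep, hmax⟩ := hId p hp hpv
    refine ⟨S, hS, hsep, fun S' hS' => ?_⟩
    show v.valuation K (z S' : K) ≤ v.valuation K (z S : K)
    rw [hz, hz, map_mul, map_mul]
    exact mul_le_mul_right (hmax S' hS') _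
  -- a coordinate which is not zero
  obtain ⟨S₀, hS₀⟩ : ∃ S₀ : Sp g, z S₀ ≠ 0 := by
    by_contra hcon
    push Not at hcon
    apply hδ0
    have h1 := dl_zero (x := fun S => (z S : K)) (fun S hS => by
      have := hcon ⟨S, hS⟩
      simp only at this
      show (z S : K) = 0
      rw [this]
      simp) l B hB
    rw [← hδ] at h1
    exact_mod_cast h1
  obtain ⟨ww, hww⟩ : ∃ ww : Sp g → 𝓞 K, ww = fun S : Sp g => W α β S * z S ^ 2 := ⟨_, rfl⟩
  have ew (S : Sp g) : ww S = W α β S * z S ^ 2 := by rw [hww]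
  have hw0 : ww S₀ ≠ 0 := by
    rw [ew]
    exact mul_ne_zero (Wne h _) (pow_ne_zero 2 hS₀)
  have e0 : (fun S : Sp g => ((W α β S * z S ^ 2 : 𝓞 K) : K)) = fun S => ((ww S : 𝓞 K) : K) := by
    rw [hww]
  have h1 := norm_al h hb hS₀ hLz hIz
  rw [← hww] at h1
  have h2 := norm_dl h hb hγ hz hS₀ hLz hl hB hδ hδ0 hS₁
  have h3 := norm_sub h hM (pl_sub hB)
  have hszl : ∑ q ∈ l.toFinset.map ⟨e2, e2_inj⟩, (sz (m q.1) + sz (m q.2)) = szl m l := by
    rw [sum_map]
    rfl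
  rw [hszl] at h3
  have hPd : Pn α β * δ ^ 2 ≠ 0 := mul_ne_zero (Pn_ne h) (pow_ne_zero 2 hδ0)
  have h4 := HD.arch_low (Z := ww) hPd (c := fun w => ((∏ i, m i w) ^ (g + 1) * 4 ^ l.length)⁻¹)
    (fun w => by have := pm_pos hM w; positivity)
    fun w => by
      have : Nonempty (Sp g) := ⟨S₀⟩
      obtain ⟨S, -, hS⟩ := exists_max_image (univ : Finset (Sp g)) (fun S => w (z S : K))
        univ_nonempty
      refine ⟨S, ?_⟩
      have h5 : w (δ : K) ≤ 2 ^ l.length * w (z S : K) := by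
        rw [hδ]
        refine dl_abs (w := w) (fun y z => ?_) (fun T hT => hS ⟨T, hT⟩ (mem_univ _)) l B hB
        rw [← InfinitePlace.norm_embedding_eq, ← InfinitePlace.norm_embedding_eq w y,
          ← InfinitePlace.norm_embedding_eq w z, map_sub]
        exact norm_sub_le _ _
      have h6 : w (δ : K) ^ 2 ≤ (2 ^ l.length * w (z S : K)) ^ 2 :=
        pow_le_pow_left₀ (apply_nonneg _ _) h5 2
      have h7 := W_low hM w S.2
      rw [ew]
      push_cast
      rw [map_mul, map_mul, map_pow, map_pow]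
      have h8 : (4 : ℝ) ^ l.length = (2 ^ l.length) ^ 2 := by
        rw [← pow_mul, Nat.mul_comm l.length 2, pow_mul]
        norm_num
      have hMw := pm_pos hM w
      rw [h8, inv_mul_le_iff₀ (by positivity)]
      calc w (Pn α β : K) * w (δ : K) ^ 2
          ≤ ((∏ i, m i w) ^ (g + 1) * w ((W α β S : 𝓞 K) : K)) *
              (2 ^ l.length * w (z S : K)) ^ 2 := by
            gcongr
        _ = (∏ i, m i w) ^ (g + 1) * (2 ^ l.length) ^ 2 *
              (w ((W α β S : 𝓞 K) : K) * w (z S : K) ^ 2) := by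
            ring
  have h9 : sz (fun w => ((∏ i, m i w) ^ (g + 1) * 4 ^ l.length)⁻¹) =
      -((g + 1) * tot m) - l.length * (Module.finrank ℚ K * Real.log 4) := by
    rw [← HD.sz_const, tot_eq hM]
    unfold HD.sz
    rw [mul_sum, mul_sum, ← sum_neg_distrib, ← sum_sub_distrib]
    refine sum_congr rfl fun w _ => ?_
    rw [Real.log_inv, Real.log_mul (pow_ne_zero _ (pm_pos hM w).ne') (by positivity), Real.log_pow,
      Real.log_pow]
    push_cast
    ring
  have h10 : Real.log (Nm (Pn α β * δ ^ 2)) = Real.log (Nm (Pn α β)) + 2 * Real.log (Nm δ) := by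
    rw [log_Nm_inf hPd, log_Nm_inf (Pn_ne h), log_Nm_inf hδ0, mul_sum, ← sum_add_distrib]
    refine sum_congr rfl fun w _ => ?_
    push_cast
    rw [map_mul, map_pow, Real.log_mul (w_pos (Pn_ne h)).ne' (pow_ne_zero 2 (w_pos hδ0).ne'),
      Real.log_pow]
    push_cast
    ring
  rw [al_ht h hb hγ hz, e0, ht_int hw0]
  rw [h9, h10] at h4
  have h11 : pl α β l = ∏ q ∈ l.toFinset.map ⟨e2, e2_inj⟩, mn α β q := rfl
  rw [h11] at h2
  linarith

end Pool.Agent.H433.EV
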