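import Pool.Agent.H433.HD.Def2

/-!
Definitions: the hyperelliptic curves of genus `g` with the branch points `(α_i : β_i)` on the
projective line, `i = 0, ..., 2 g + 1`.
-/

set_option autoImplicit false

open NumberField IsDedekindDomain Finset

namespace Pool.Agent.H433.EV

open Pool.Agent.H433.AC Pool.Agent.H433.HG

variable {g : ℕ}

/-- the minor `α_i β_j - α_j β_i` -/
def mn {R : Type*} [CommRing R] (α β : Fin (2 * g + 1 + 1) → R)
    (q : Fin (2 * g + 1 + 1) × Fin (2 * g + 1 + 1)) : R :=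
  α q.1 * β q.2 - α q.2 * β q.1

/-- The numbers `b_0, ..., b_{2 g}` are coordinates of the first `2 g + 1` of the points
`(α_i : β_i)` such that the last point is the point at infinity: up to a common factor,
`b_i - b_j` is `(α_i β_j - α_j β_i) / ((α_i β_n - α_n β_i) (α_j β_n - α_n β_j))`, `n = 2 g + 1`. -/
def Coord {K : Type} [Field K] (α β : Fin (2 * g + 1 + 1) → K) (b : Fin (2 * g + 1) → K) : Prop :=
  ∃ c : K, c ≠ 0 ∧ ∀ i j : Fin (2 * g + 1),
    (b i - b j) * (mn α β (i.castSucc, Fin.last _) * mn α β (j.castSucc, Fin.last _)) =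
      c * mn α β (i.castSucc, j.castSucc)

/-- the set `S` separates the points with the numbers `q.1` and `q.2` -/
def Sep (S : Finset (Fin (2 * g + 1))) (q : Fin (2 * g + 1 + 1) × Fin (2 * g + 1 + 1)) : Prop :=
  ¬ (q.1 ∈ S.map Fin.castSuccEmb ↔ q.2 ∈ S.map Fin.castSuccEmb)

section number

variable {K L : Type} [Field K] [NumberField K] [Field L] [NumberField L] [Algebra K L]

/-- The reduction modulo `v` has one node: modulo every prime `u` of `L` over `v` exactly two of the
points `(α_i : β_i)` coincide. -/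
def Node (α β : Fin (2 * g + 1 + 1) → 𝓞 L) (v : HeightOneSpectrum (𝓞 K)) : Prop :=
  ∀ u : HeightOneSpectrum (𝓞 L), HD.Over v u →
    ∃! q : Fin (2 * g + 1 + 1) × Fin (2 * g + 1 + 1), q.1 < q.2 ∧ mn α β q ∈ u.asIdeal

/-- One of the minors is divisible by `v` exactly once. -/
def Thin (α β : Fin (2 * g + 1 + 1) → 𝓞 K) (v : HeightOneSpectrum (𝓞 K)) : Prop :=
  ∃ q : Fin (2 * g + 1 + 1) × Fin (2 * g + 1 + 1), q.1 < q.2 ∧ mn α β q ∈ v.asIdeal ∧
    mn α β q ∉ v.asIdeal ^ 2

/-- The point with the coordinates `x` lies in the identity component at `v`: if two of the points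
`(α_i : β_i)` coincide modulo `v`, then the largest of the values `|x S|_v` is taken for a set `S`
which separates them. -/
def Ident (α β : Fin (2 * g + 1 + 1) → 𝓞 K) (x : Finset (Fin (2 * g + 1)) → K)
    (v : HeightOneSpectrum (𝓞 K)) : Prop :=
  ∀ q : Fin (2 * g + 1 + 1) × Fin (2 * g + 1 + 1), q.1 < q.2 → mn α β q ∈ v.asIdeal →
    ∃ S ∈ Sp g, Sep S q ∧ ∀ S' ∈ Sp g, v.valuation K (x S') ≤ v.valuation K (x S)

/-- the sum of `log m_i` over the archimedean places, for the points in the pairs of the list -/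
noncomputable def szl (m : Fin (2 * g + 1 + 1) → InfinitePlace K → ℝ)
    (l : List (Fin (2 * g + 1) × Fin (2 * g + 1))) : ℝ :=
  ∑ p ∈ l.toFinset, (HD.sz (m p.1.castSucc) + HD.sz (m p.2.castSucc))

end number

end Pool.Agent.H433.EV
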