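import Pool.Agent.H433.EV.Arch

/-!
Extension of the base field.
-/

set_option autoImplicit false
set_option linter.unusedSectionVars false
set_option linter.unusedVariables false

open NumberField IsDedekindDomain Finset

namespace Pool.Agent.H433.EV

open Pool.Agent.H433.AC hiding Vf mem_Vf
open Pool.Agent.H433.HG hiding W Single single_units loc_gen loc_simple mu Smp Sng exs sum_exs
  norm_le mp_W_le Wne W_co W_rs norm_dl al_ht pl pl_ne mp_pl mp_single mu_eq_zero prod_up hm_eq
  hm_up single_up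
open Pool.Agent.H433.GT (mi le_mi span_ne le_mi_span log_absNorm mp_mul mp_prod mem_of_mul
  lt_pow le_of_simple log_Nm Nm_inf ht_int)
open Pool.Agent.H433.HD (sz Over part over_iff exists_between mp_neg_one alg_alg)

section two

variable {g : ℕ} {K L : Type} [Field K] [NumberField K] [Field L] [NumberField L] [Algebra K L]

variable (L) in
/-- the image of a vector in the extension -/
def upn (α : Fin (2 * g + 1 + 1) → 𝓞 K) : Fin (2 * g + 1 + 1) → 𝓞 L :=
  fun i => algebraMap (𝓞 K) (𝓞 L) (α i)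

variable {α β : Fin (2 * g + 1 + 1) → 𝓞 K} {m : Fin (2 * g + 1 + 1) → InfinitePlace K → ℝ}

theorem mn_up (q : Fin (2 * g + 1 + 1) × Fin (2 * g + 1 + 1)) :
    mn (upn L α) (upn L β) q = algebraMap (𝓞 K) (𝓞 L) (mn α β q) := by
  unfold mn upn
  rw [map_sub, map_mul, map_mul]

theorem dn_up (h : Dn α β) : Dn (upn L α) (upn L β) := fun q hq => by
  rw [mn_up]
  exact (map_ne_zero_iff _ alg_inj).2 (h q hq)

theorem Pn_up : Pn (upn L α) (upn L β) = algebraMap (𝓞 K) (𝓞 L) (Pn α β) := by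
  unfold Pn
  rw [map_prod]
  exact prod_congr rfl fun q _ => mn_up q

theorem bd_up (hM : Bd α β m) :
    Bd (upn L α) (upn L β) fun i w => m i (w.comap (algebraMap K L)) := by
  refine ⟨fun i w => hM.1 i _, fun w q hq => ?_⟩
  rw [mn_up, alg_co]
  exact hM.2 (w.comap (algebraMap K L)) q hq

theorem coord_up {b : Fin (2 * g + 1) → K}
    (hb : Coord (fun i => (α i : K)) (fun i => (β i : K)) b) :
    Coord (fun i => (upn L α i : L)) (fun i => (upn L β i : L)) fun i => algebraMap K L (b i) := by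
  obtain ⟨c, hc, h⟩ := hb
  refine ⟨algebraMap K L c, (map_ne_zero _).2 hc, fun i j => ?_⟩
  have e1 (q : Fin (2 * g + 1 + 1) × Fin (2 * g + 1 + 1)) :
      mn (fun i => (upn L α i : L)) (fun i => (upn L β i : L)) q =
      algebraMap K L (mn (fun i => (α i : K)) (fun i => (β i : K)) q) := by
    rw [← mn_co, ← mn_co, mn_up, alg_co]
  rw [e1, e1, e1, ← map_sub, ← map_mul, ← map_mul, ← map_mul, h i j]

theorem tot_up : tot (fun i (w : InfinitePlace L) => m i (w.comap (algebraMap K L))) =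
    Module.finrank K L * tot m := by
  unfold tot
  rw [mul_sum]
  exact sum_congr rfl fun i _ => HD.sz_comap (m i)

theorem szl_up (l : List (Fin (2 * g + 1) × Fin (2 * g + 1))) :
    szl (fun i (w : InfinitePlace L) => m i (w.comap (algebraMap K L))) l =
    Module.finrank K L * szl m l := by
  unfold szl
  rw [mul_sum]
  refine sum_congr rfl fun p _ => ?_
  rw [HD.sz_comap (m _), HD.sz_comap (m _)]
  ring

theorem single_up {p : Fin (2 * g + 1 + 1) × Fin (2 * g + 1 + 1)}
    {v : HeightOneSpectrum (𝓞 K)} (hs : Single α β p v) {w : HeightOneSpectrum (𝓞 L)}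
    (hw : J L v ≤ w.asIdeal) : Single (upn L α) (upn L β) p w := by
  obtain ⟨s1, s3⟩ := hs
  refine ⟨?_, fun q hq hqw => ?_⟩
  · rw [mn_up]
    exact hw (Ideal.mem_map_of_mem _ s1)
  · rw [mn_up, ← Ideal.mem_comap, comap_eq hw] at hqw
    exact s3 q hq hqw

/-- a thin place over a node -/
theorem smp_of_thin {w : HeightOneSpectrum (𝓞 K)} (hs : Sng α β w) (ht : Thin α β w) :
    Smp α β w := by
  obtain ⟨p, hp, hs1, hs2⟩ := hs
  obtain ⟨q, hq, hqw, hq2⟩ := ht
  have h2 := hs2 q (mem_prs.2 hq) hqw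
  rw [h2] at hq2
  exact ⟨p, hp, ⟨hs1, hs2⟩, hq2⟩

end two

section tower

variable {g : ℕ} {K L E : Type} [Field K] [NumberField K] [Field L] [NumberField L]
  [Field E] [NumberField E] [Algebra K L] [Algebra L E] [Algebra K E] [IsScalarTower K L E]

variable {α β : Fin (2 * g + 1 + 1) → 𝓞 L}

theorem sng_of_node {v : HeightOneSpectrum (𝓞 K)} (h : Node α β v)
    {u : HeightOneSpectrum (𝓞 L)} (hu : Over v u) : Sng α β u := by
  obtain ⟨p, ⟨hp, hpv⟩, huniq⟩ := h u hu
  exact ⟨p, mem_prs.2 hp, hpv, fun q hq hqv => huniq q ⟨mem_prs.1 hq, hqv⟩⟩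

theorem sng_of_over {v : HeightOneSpectrum (𝓞 K)} (h : Node α β v)
    {w : HeightOneSpectrum (𝓞 E)} (hw : J E v ≤ w.asIdeal) : Sng (upn E α) (upn E β) w := by
  obtain ⟨u, hu, huw⟩ := exists_between L hw
  obtain ⟨p, hp, hs⟩ := sng_of_node h hu
  exact ⟨p, hp, single_up hs (over_iff.1 huw)⟩

theorem D_up {D : 𝓞 K} (hD : algebraMap (𝓞 K) (𝓞 L) D = Pn α β ^ 2) :
    algebraMap (𝓞 K) (𝓞 E) D = Pn (upn E α) (upn E β) ^ 2 := by
  rw [← alg_alg (L := L), hD, Pn_up]
  simp

theorem D_ne (h : Dn α β) {D : 𝓞 K} (hD : algebraMap (𝓞 K) (𝓞 L) D = Pn α β ^ 2) : D ≠ 0 := by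
  rintro rfl
  rw [map_zero] at hD
  exact pow_ne_zero 2 (Pn_ne h) hD.symm

theorem mp_D (h : Dn α β) (w : HeightOneSpectrum (𝓞 L)) :
    mp w (Pn α β ^ 2) = 2 * mu α β w := by
  rw [pow_two, mp_mul (Pn_ne h) (Pn_ne h), mp_Pn h]
  ring

/-- the part of the discriminant which is composed of the primes in `T` -/
theorem part_le (h : Dn α β) {D : 𝓞 K} (hD : algebraMap (𝓞 K) (𝓞 L) D = Pn α β ^ 2)
    {T : Finset (HeightOneSpectrum (𝓞 K))} (hT : ∀ v ∈ T, Node α β v) :
    Module.finrank K E * part T D ≤ 2 * (Real.log (Nm (Pn (upn E α) (upn E β))) -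
      exs (dn_up (L := E) h) fun w => ∃ v ∈ T, J E v ≤ w.asIdeal) := by
  classical
  set hE := dn_up (L := E) h with hhE
  have hD0 := D_ne h hD
  have hDE := D_up (E := E) hD
  have hPE := Pn_ne hE
  have e0 : Real.log (Nm (Pn (upn E α) (upn E β))) =
      ∑ w ∈ Vf hE, (mu (upn E α) (upn E β) w : ℝ) * Real.log (nv w) := by
    rw [log_Nm hPE (Vf hE) fun w hw => (mem_Vf' hE).2 hw]
    exact sum_congr rfl fun w _ => by rw [mp_Pn hE]
  have e1 (v : HeightOneSpectrum (𝓞 K)) (hv : v ∈ T) :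
      Module.finrank K E * ((mp v D : ℝ) * Real.log (nv v)) =
        ∑ w ∈ Vf hE, ((mp v D : ℝ) * mi w (J E v)) * Real.log (nv w) := by
    have h1 : Module.finrank K E * Real.log (nv v) =
        ∑ w ∈ Vf hE, (mi w (J E v) : ℝ) * Real.log (nv w) := by
      rw [← log_absNorm (J_ne v) (Vf hE) fun w hw => ?_]
      · unfold J
        rw [Ideal.absNorm_algebraMap, ← IsFractionRing.finrank_eq (𝓞 K) K (𝓞 E) E]
        push_cast
        rw [Real.log_pow]
        rfl
      · obtain ⟨p, hp, hs⟩ := sng_of_over (E := E) (hT v hv) (Ideal.dvd_iff_le.1 hw)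
        exact mem_Vf hE hp hs.1
    rw [mul_left_comm, h1, mul_sum]
    exact sum_congr rfl fun w _ => by ring
  have e2 : Module.finrank K E * part T D =
      ∑ w ∈ Vf hE, (∑ v ∈ T, (mp v D : ℝ) * mi w (J E v)) * Real.log (nv w) := by
    have : part T D = ∑ v ∈ T, (mp v D : ℝ) * Real.log (nv v) := rfl
    rw [this, mul_sum, sum_congr rfl e1, sum_comm]
    exact sum_congr rfl fun w _ => by rw [sum_mul]
  unfold exs
  rw [e0, e2, ← sum_sub_distrib, mul_sum]
  refine sum_le_sum fun w _ => ?_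
  rw [← sub_mul, ← mul_assoc]
  refine mul_le_mul_of_nonneg_right ?_ (log_nv_pos w).le
  by_cases hex : ∃ v ∈ T, J E v ≤ w.asIdeal
  · rw [if_pos hex, sub_zero]
    obtain ⟨v, hv, hvw⟩ := hex
    rw [sum_eq_single_of_mem v hv fun v' hv' hne => ?_]
    · have h1 : algebraMap (𝓞 K) (𝓞 E) D ∈ w.asIdeal ^ (mi w (J E v) * mp v D) := by
        have h2 : D ∈ v.asIdeal ^ mp v D := (le_mp hD0 _).2 le_rfl
        have h3 : algebraMap (𝓞 K) (𝓞 E) D ∈ (J E v) ^ mp v D := by
          unfold J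
          rw [← Ideal.map_pow]
          exact Ideal.mem_map_of_mem _ h2
        rw [pow_mul]
        exact Ideal.pow_right_mono (J_le le_rfl) _ h3
      rw [hDE, le_mp (pow_ne_zero 2 hPE), mp_D hE] at h1
      have h2 : ((mi w (J E v) * mp v D : ℕ) : ℝ) ≤
          ((2 * mu (upn E α) (upn E β) w : ℕ) : ℝ) := by
        exact_mod_cast h1
      push_cast at h2
      linarith
    · have h2 : mi w (J E v') = 0 := by
        by_contra hne0
        have h2 : J E v' ≤ w.asIdeal := by
          have := J_le (v := v') (w := w) (t := 1) (by omega)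
          rwa [pow_one] at this
        have h4 := comap_eq h2
        rw [comap_eq hvw] at h4
        exact hne (HeightOneSpectrum.ext h4.symm)
      rw [h2, Nat.cast_zero, mul_zero]
  · rw [if_neg hex, sub_self, mul_zero]
    refine (sum_eq_zero fun v hv => ?_).le
    have h2 : mi w (J E v) = 0 := by
      by_contra hne0
      apply hex
      refine ⟨v, hv, ?_⟩
      have := J_le (v := v) (w := w) (t := 1) (by omega)
      rwa [pow_one] at this
    rw [h2, Nat.cast_zero, mul_zero]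

end tower

section loss

variable {g : ℕ} {E : Type} [Field E] [NumberField E] {α β : Fin (2 * g + 1 + 1) → 𝓞 E}

/-- the loss at the places in `R` -/
theorem exs_R (h : Dn α β) {P Q : HeightOneSpectrum (𝓞 E) → Prop}
    (R : Finset (HeightOneSpectrum (𝓞 E))) (hPQ : ∀ w, Q w → w ∉ R → P w) :
    exs h P ≤ exs h Q + 1 / 2 * part R (Pn α β ^ 2) := by
  classical
  have e1 : 1 / 2 * part R (Pn α β ^ 2) = ∑ w ∈ R, (mu α β w : ℝ) * Real.log (nv w) := by
    have : part R (Pn α β ^ 2) = ∑ w ∈ R, (mp w (Pn α β ^ 2) : ℝ) * Real.log (nv w) := rfl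
    rw [this, mul_sum]
    refine sum_congr rfl fun w _ => ?_
    rw [mp_D h]
    push_cast
    ring
  have e2 : ∑ w ∈ Vf h, (if w ∈ R then (mu α β w : ℝ) else 0) * Real.log (nv w) ≤
      ∑ w ∈ R, (mu α β w : ℝ) * Real.log (nv w) := by
    have e3 : ∀ w ∈ Vf h, (if w ∈ R then (mu α β w : ℝ) else 0) * Real.log (nv w) =
        if w ∈ R then (mu α β w : ℝ) * Real.log (nv w) else 0 := fun w _ => by
      split_ifs
      · rfl
      · rw [zero_mul]
    rw [sum_congr rfl e3, ← sum_filter, filter_mem_eq_inter]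
    refine sum_le_sum_of_subset_of_nonneg inter_subset_right fun w _ _ => ?_
    exact mul_nonneg (Nat.cast_nonneg _) (log_nv_pos w).le
  rw [e1]
  refine le_trans ?_ (add_le_add_right e2 _)
  unfold exs
  rw [← sum_add_distrib]
  refine sum_le_sum fun w _ => ?_
  rw [← add_mul]
  refine mul_le_mul_of_nonneg_right ?_ (log_nv_pos w).le
  have h0 : (0 : ℝ) ≤ mu α β w := Nat.cast_nonneg _
  by_cases hP : P w
  · rw [if_pos hP]
    split_ifs <;> linarith
  · rw [if_neg hP]
    by_cases hR : w ∈ R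
    · rw [if_pos hR]
      split_ifs <;> linarith
    · have hQ : ¬ Q w := fun hQ => hP (hPQ w hQ hR)
      rw [if_neg hQ, if_neg hR]
      linarith

end loss

end Pool.Agent.H433.EV
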