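import Pool.Agent.H433.EV.Pairs

/-!
The coordinates at a place where exactly two points coincide.
-/

set_option autoImplicit false
set_option linter.unusedSectionVars false
set_option linter.unusedVariables false

open Finset

namespace Pool.Agent.H433.EV

open Pool.Agent.H433.AC Pool.Agent.H433.HG

variable {g : ℕ} {K : Type} [Field K]

variable {Γ : Type*} [LinearOrderedCommGroupWithZero Γ] {w : Valuation K Γ}

section inf

variable {a : Fin (2 * g + 1) → K} {i₀ : Fin (2 * g + 1)} {u : Γ}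

theorem cf_inf (hn : ∀ i j, i ≠ j → i ≠ i₀ → j ≠ i₀ → w (a i - a j) = 1)
    (hi : ∀ j, j ≠ i₀ → w (a i₀ - a j) = u⁻¹) {U : Finset (Fin (2 * g + 1))} (hU : i₀ ∉ U)
    {i : Fin (2 * g + 1)} (hiU : i ∈ U) : w (cf a U i) = u⁻¹ := by
  have hii : i ≠ i₀ := fun h => hU (h ▸ hiU)
  unfold cf
  have h1 : i₀ ∈ Uᶜ := mem_compl.2 hU
  rw [map_div₀, ← mul_prod_erase _ _ h1, map_mul, prod_one, prod_one, div_one, mul_one]
  · rw [← Valuation.map_neg, neg_sub]
    exact hi i hii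
  · intro j hj
    obtain ⟨h2, h3⟩ := mem_erase.1 hj
    exact hn i j (fun h => h2 h.symm) hii fun h => hU (h ▸ h3)
  · intro j hj
    obtain ⟨h2, h3⟩ := mem_erase.1 hj
    exact hn i j (fun h => (mem_compl.1 h3) (h ▸ hiU)) hii h2

/-- At a simple place where a point coincides with the last point. -/
theorem loc_inf {x : Finset (Fin (2 * g + 1)) → K} {t : K} {r : Γ} (hx : Linear a x)
    (hn : ∀ i j, i ≠ j → i ≠ i₀ → j ≠ i₀ → w (a i - a j) = 1)
    (hi : ∀ j, j ≠ i₀ → w (a i₀ - a j) = u⁻¹) (hu0 : u ≠ 0) (hu1 : u < 1)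
    (hd : ∀ z : K, w z < 1 → w z ≤ u) (hsq : ∀ S ∈ Sp g, ∃ q, x S = t * q ^ 2) (hr : r ≠ 0)
    {S₀ : Finset (Fin (2 * g + 1))} (hS₀ : S₀ ∈ Sp g) (hx0 : w (x S₀) = r) :
    ∃ S ∈ Sp g, i₀ ∈ S ∧ r ≤ w (x S) := by
  by_contra hcon'
  have hcon : ∀ S ∈ Sp g, i₀ ∈ S → w (x S) < r :=
    fun S hS hs => not_le.1 fun h => hcon' ⟨S, hS, hs, h⟩
  have hu0' : 0 < u := zero_lt_iff.2 hu0
  have hur : u * r < r := by
    have := (mul_lt_mul_iff_of_pos_right (zero_lt_iff.2 hr)).2 hu1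
    rwa [one_mul] at this
  have h1 (S : Finset (Fin (2 * g + 1))) (hS : S ∈ Sp g) (hs : i₀ ∈ S) :
      w (x S) ≤ u * (u * r) :=
    sq_le hd hr (hsq S hS) (hsq S₀ hS₀) (hcon S hS hs) hx0
  have hB (U : Finset (Fin (2 * g + 1))) (hU : U ∈ Sp g) (hiU : i₀ ∉ U) :
      w (x U) ≤ u * r := by
    rw [hx U hU]
    refine w.map_sum_le fun i hi' => ?_
    have h2 := cf_inf hn hi hiU hi'
    unfold cf at h2
    rw [map_mul, h2, inv_mul_le_iff₀ hu0']
    refine h1 _ (insert_mem (card_co (mem_Sp.1 hU)) fun h => (mem_compl.1 h) hi') ?_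
    exact mem_insert_of_mem (mem_compl.2 hiU)
  have hlt : w (x S₀) ≤ u * r := by
    by_cases hi : i₀ ∈ S₀
    · exact (h1 _ hS₀ hi).trans (mul_le_mul_right hur.le _)
    · exact hB _ hS₀ hi
  rw [hx0] at hlt
  exact absurd hur (not_lt.2 hlt)

end inf

variable {α β : Fin (2 * g + 1 + 1) → K} {b : Fin (2 * g + 1) → K}

theorem mn_self {R : Type*} [CommRing R] (α β : Fin (2 * g + 1 + 1) → R)
    (i : Fin (2 * g + 1 + 1)) : mn α β (i, i) = 0 := by
  unfold mn
  ring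

/-- the differences of the coordinates -/
theorem diff_val {c : K} (hc : c ≠ 0)
    (hb : ∀ i j : Fin (2 * g + 1),
      (b i - b j) * (mn α β (i.castSucc, Fin.last _) * mn α β (j.castSucc, Fin.last _)) =
      c * mn α β (i.castSucc, j.castSucc)) (i j : Fin (2 * g + 1)) :
    w (c⁻¹ * b i - c⁻¹ * b j) *
      (w (mn α β (i.castSucc, Fin.last _)) * w (mn α β (j.castSucc, Fin.last _))) =
      w (mn α β (i.castSucc, j.castSucc)) := by
  rw [← map_mul, ← map_mul]
  congr 1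
  have h1 := hb i j
  field_simp
  linear_combination h1

/-- exactly the minor with the number `p` is not a unit -/
def Unit1 (w : Valuation K Γ) (α β : Fin (2 * g + 1 + 1) → K)
    (p : Fin (2 * g + 1 + 1) × Fin (2 * g + 1 + 1)) : Prop :=
  ∀ i j : Fin (2 * g + 1 + 1), i ≠ j → ¬ (i = p.1 ∧ j = p.2) → ¬ (i = p.2 ∧ j = p.1) →
    w (mn α β (i, j)) = 1

theorem cs_ne {i j : Fin (2 * g + 1)} (h : i ≠ j) : i.castSucc ≠ j.castSucc :=
  fun h' => h (Fin.castSucc_injective _ h')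

theorem cs_last (i : Fin (2 * g + 1)) : i.castSucc ≠ Fin.last (2 * g + 1) :=
  (Fin.castSucc_lt_last i).ne

/-- two finite points coincide: the differences -/
theorem fin_val {i₀ j₀ : Fin (2 * g + 1)} (hu : Unit1 w α β (i₀.castSucc, j₀.castSucc)) {c : K}
    (hc : c ≠ 0) (hb : ∀ i j : Fin (2 * g + 1),
      (b i - b j) * (mn α β (i.castSucc, Fin.last _) * mn α β (j.castSucc, Fin.last _)) =
      c * mn α β (i.castSucc, j.castSucc)) (i j : Fin (2 * g + 1)) :
    w (c⁻¹ * b i - c⁻¹ * b j) = w (mn α β (i.castSucc, j.castSucc)) := by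
  have h1 := diff_val (w := w) hc hb i j
  have h2 (k : Fin (2 * g + 1)) : w (mn α β (k.castSucc, Fin.last _)) = 1 := by
    refine hu _ _ (cs_last k) (fun h => ?_) fun h => ?_
    · exact cs_last _ h.2.symm
    · exact cs_last _ h.2.symm
  rw [h2, h2, mul_one, mul_one] at h1
  exact h1

/-- At a simple place one of the coordinates which separate the two points is not smaller than the
other coordinates. -/
theorem loc_sep (hb : Coord α β b) {p : Fin (2 * g + 1 + 1) × Fin (2 * g + 1 + 1)}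
    (hp : p.1 < p.2) (hu : Unit1 w α β p) (hu0 : w (mn α β p) ≠ 0) (hu1 : w (mn α β p) < 1)
    (hd : ∀ z : K, w z < 1 → w z ≤ w (mn α β p)) {x : Finset (Fin (2 * g + 1)) → K} {t : K}
    {r : Γ} (hx : Linear b x) (hsq : ∀ S ∈ Sp g, ∃ q, x S = t * q ^ 2) (hr : r ≠ 0)
    {S₀ : Finset (Fin (2 * g + 1))} (hS₀ : S₀ ∈ Sp g) (hx0 : w (x S₀) = r) :
    ∃ S ∈ Sp g, Sep S p ∧ r ≤ w (x S) := by
  obtain ⟨p1, p2⟩ := p
  obtain ⟨c, hc, hbc⟩ := hb
  have hx' := linear_smul (inv_ne_zero hc) hx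
  obtain ⟨i₀, rfl⟩ | rfl := p1.eq_castSucc_or_eq_last
  swap
  · exact absurd hp (not_lt.2 (Fin.le_last _))
  obtain ⟨j₀, rfl⟩ | rfl := p2.eq_castSucc_or_eq_last
  · -- two finite points
    have hval := fin_val (w := w) hu hc hbc
    have hij : i₀ ≠ j₀ := fun h => by
      rw [h] at hp
      exact lt_irrefl _ hp
    obtain ⟨S, hS, hsep, hle⟩ := loc_I (w := w) (i₀ := i₀) (j₀ := j₀) hx' (fun i j h1 h2 h3 => by
        show w (c⁻¹ * b i - c⁻¹ * b j) = 1
        rw [hval]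
        refine hu _ _ (cs_ne h1) (fun h => h2 ?_) fun h => h3 ?_
        · exact ⟨Fin.castSucc_injective _ h.1, Fin.castSucc_injective _ h.2⟩
        · exact ⟨Fin.castSucc_injective _ h.1, Fin.castSucc_injective _ h.2⟩) hij
      (by
        show w (c⁻¹ * b i₀ - c⁻¹ * b j₀) ≠ 0
        rwa [hval])
      (by
        show w (c⁻¹ * b i₀ - c⁻¹ * b j₀) < 1
        rwa [hval])
      (by
        show ∀ z : K, w z < 1 → w z ≤ w (c⁻¹ * b i₀ - c⁻¹ * b j₀)
        rwa [hval]) hsq hr hS₀ hx0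
    refine ⟨S, hS, ?_, hle⟩
    show ¬ (i₀.castSucc ∈ em S ↔ j₀.castSucc ∈ em S)
    rwa [mem_em, mem_em]
  · -- a finite point and the last point
    set u := w (mn α β (i₀.castSucc, Fin.last (2 * g + 1))) with hud
    have h2 (k : Fin (2 * g + 1)) (hk : k ≠ i₀) : w (mn α β (k.castSucc, Fin.last _)) = 1 := by
      refine hu _ _ (cs_last k) (fun h => ?_) fun h => ?_
      · exact hk (Fin.castSucc_injective _ h.1)
      · exact cs_last _ h.1
    have h3 (i j : Fin (2 * g + 1)) (hij : i ≠ j) : w (mn α β (i.castSucc, j.castSucc)) = 1 := by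
      refine hu _ _ (cs_ne hij) (fun h => ?_) fun h => ?_
      · exact cs_last _ h.2
      · exact cs_last _ h.1
    obtain ⟨S, hS, hsep, hle⟩ := loc_inf (w := w) (i₀ := i₀) (u := u) hx' (fun i j h4 h5 h6 => by
        show w (c⁻¹ * b i - c⁻¹ * b j) = 1
        have h1 := diff_val (w := w) hc hbc i j
        rw [h2 i h5, h2 j h6, mul_one, mul_one, h3 i j h4] at h1
        exact h1)
      (fun j hj => by
        show w (c⁻¹ * b i₀ - c⁻¹ * b j) = u⁻¹
        have h1 := diff_val (w := w) hc hbc i₀ j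
        rw [h2 j hj, mul_one, h3 i₀ j hj.symm] at h1
        exact eq_inv_of_mul_eq_one_left h1) hu0 hu1 hd hsq hr hS₀ hx0
    refine ⟨S, hS, ?_, hle⟩
    show ¬ (i₀.castSucc ∈ em S ↔ Fin.last _ ∈ em S)
    rw [mem_em]
    exact fun h => last_em S (h.1 hsep)

/-- the difference of two coordinates, at a place where two finite points coincide -/
theorem loc_dif (hb : Coord α β b) (hinj : Function.Injective b) {i₀ j₀ : Fin (2 * g + 1)}
    (hij : i₀ ≠ j₀) (hu : Unit1 w α β (i₀.castSucc, j₀.castSucc))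
    {x : Finset (Fin (2 * g + 1)) → K} (hx : Linear b x) {T : Finset (Fin (2 * g + 1))}
    (hT : T.card = g) (hi : i₀ ∉ T) (hj : j₀ ∉ T) {r : Γ}
    (hr : ∀ S ∈ Sp g, ∀ S' ∈ Sp g, w (x S - x S') ≤ r) :
    w (x (insert i₀ T) - x (insert j₀ T)) ≤ w (mn α β (i₀.castSucc, j₀.castSucc)) * r := by
  obtain ⟨c, hc, hbc⟩ := hb
  have hx' := linear_smul (inv_ne_zero hc) hx
  have hval := fin_val (w := w) hu hc hbc
  have hinj' : Function.Injective fun i => c⁻¹ * b i := fun i j h =>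
    hinj (mul_left_cancel₀ (inv_ne_zero hc) h)
  have h1 := loc_II (w := w) (i₀ := i₀) (j₀ := j₀) hx' hinj' (fun i j h1 h2 h3 => by
        show w (c⁻¹ * b i - c⁻¹ * b j) = 1
        rw [hval]
        refine hu _ _ (cs_ne h1) (fun h => h2 ?_) fun h => h3 ?_
        · exact ⟨Fin.castSucc_injective _ h.1, Fin.castSucc_injective _ h.2⟩
        · exact ⟨Fin.castSucc_injective _ h.1, Fin.castSucc_injective _ h.2⟩) hij hT hi hj hr
  rw [hval] at h1
  exact h1

end Pool.Agent.H433.EV
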