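import Pool.Agent.H433.EV.Ext
import Pool.Agent.H433.HD.TorMain

/-!
The lower bound over a tower.
-/

set_option autoImplicit false
set_option linter.unusedSectionVars false
set_option linter.unusedVariables false

open NumberField IsDedekindDomain Finset Filter Topology

namespace Pool.Agent.H433.EV

open Pool.Agent.H433.AC hiding Vf mem_Vf
open Pool.Agent.H433.HG hiding W Single single_units loc_gen loc_simple mu Smp Sng exs sum_exs
  norm_le mp_W_le Wne W_co W_rs norm_dl al_ht pl pl_ne mp_pl mp_single mu_eq_zero prod_up hm_eq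
  hm_up single_up
open Pool.Agent.H433.HD (sz Over part over_iff exists_between mp_neg_one alg_alg al_hhat Sqs
  cst_le comap_comp)

theorem low_ev {g : ℕ} (hg : 1 ≤ g) {K L E : Type} [Field K] [NumberField K] [Field L]
    [NumberField L] [Field E] [NumberField E] [Algebra K L] [Algebra L E] [Algebra K E]
    [IsScalarTower K L E] {α β : Fin (2 * g + 1 + 1) → 𝓞 L} (h : Dn α β) {D : 𝓞 K}
    (hD : algebraMap (𝓞 K) (𝓞 L) D = Pn α β ^ 2)
    {m : Fin (2 * g + 1 + 1) → InfinitePlace L → ℝ} (hM : Bd α β m)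
    {b : Fin (2 * g + 1) → L} (hb : Coord (fun i => (α i : L)) (fun i => (β i : L)) b)
    {T : Finset (HeightOneSpectrum (𝓞 K))} (hT : ∀ v ∈ T, Node α β v)
    {X : ℕ → Finset (Fin (2 * g + 1)) → E} (hX : Orbit (fun i => algebraMap L E (b i)) X)
    {R : Finset (HeightOneSpectrum (𝓞 E))}
    (hI : ∀ v ∈ T, ∀ (u : HeightOneSpectrum (𝓞 L)) (w : HeightOneSpectrum (𝓞 E)), Over v u →
      Over u w → w ∉ R → Sqs (X 0) ∧ Thin (upn E α) (upn E β) w ∨
        Ident (upn E α) (upn E β) (X 0) w)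
    {l : List (Fin (2 * g + 1) × Fin (2 * g + 1))} {B : Finset (Fin (2 * g + 1))} (hl : l ≠ [])
    (hB : Apart l B) (hd : dl (X 0) l B ≠ 0)
    {S₁ : Finset (HeightOneSpectrum (𝓞 E))} (hS₁ : ∀ v ∈ S₁, Zero (X 0) v) :
    Module.finrank L E * (3 / 4 * (Module.finrank K L * part T D -
      2 * (2 * g + 1) * tot m + 4 / 3 * szl m l) - 4 * g * Module.finrank ℚ L) +
      ∑ v ∈ S₁, Real.log (nv v) -
      1 / 4 * part R (algebraMap (𝓞 L) (𝓞 E) (algebraMap (𝓞 K) (𝓞 L) D)) ≤ hhat X := by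
  have hE := dn_up (L := E) h
  have hME := bd_up (L := E) hM
  have hbE := coord_up (L := E) hb
  obtain ⟨Q, hQ⟩ : ∃ Q : HeightOneSpectrum (𝓞 E) → Prop, Q = fun w => ∃ v ∈ T, J E v ≤ w.asIdeal :=
    ⟨_, rfl⟩
  obtain ⟨P, hP⟩ : ∃ P : HeightOneSpectrum (𝓞 E) → Prop, P = fun w => Q w ∧ w ∉ R := ⟨_, rfl⟩
  have h1 := al_low hE hME hbE (P := P) (y := X 0) (hX 0).2.1 (fun w hw => by
    rw [hP, hQ] at hw
    obtain ⟨⟨v, hv, hvw⟩, hwR⟩ := hw
    obtain ⟨u, hu, huw⟩ := exists_between L hvw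
    have hs := sng_of_over (hT v hv) hvw
    rcases hI v hv u w hu huw hwR with ⟨h1, h2⟩ | h1
    · exact Or.inl ⟨smp_of_thin hs h2, h1⟩
    · exact Or.inr ⟨hs, h1⟩) hl hB hd hS₁
  have h2 := al_hhat (coord_inj hE.co hbE) hX
  have h3 := hm_up hE hME hbE
  have h4 := part_le (E := E) h hD hT
  rw [← hQ] at h4
  have h5 := exs_R hE (P := P) (Q := Q) R fun w h1 h2 => by
    rw [hP]
    exact ⟨h1, h2⟩
  have h6 := exs_anti hE (P := Q) (Q := Sng (upn E α) (upn E β)) fun w hw => by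
    rw [hQ] at hw
    obtain ⟨v, hv, hvw⟩ := hw
    exact sng_of_over (hT v hv) hvw
  have eD : algebraMap (𝓞 L) (𝓞 E) (algebraMap (𝓞 K) (𝓞 L) D) =
      Pn (upn E α) (upn E β) ^ 2 := by
    rw [alg_alg]
    exact D_up hD
  rw [← eD] at h5
  have e6 : (Module.finrank ℚ E : ℝ) = Module.finrank L E * Module.finrank ℚ L := by
    rw [mul_comm]
    exact_mod_cast (Module.finrank_mul_finrank ℚ L E).symm
  have eKE : (Module.finrank K E : ℝ) = Module.finrank L E * Module.finrank K L := by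
    rw [mul_comm]
    exact_mod_cast (Module.finrank_mul_finrank K L E).symm
  rw [tot_up, szl_up] at h1
  rw [tot_up] at h3
  rw [e6] at h1 h2
  rw [eKE] at h4
  have hk1 : (l.length : ℝ) ≤ g + 1 := by
    have := hB.2.2
    have h2 : l.length ≤ g + 1 := by omega
    exact_mod_cast h2
  set n : ℝ := (Module.finrank L E : ℝ) with hn
  set d : ℝ := (Module.finrank ℚ L : ℝ) with hd
  set kk : ℝ := (l.length : ℝ) with hkk
  have hm0 : 0 ≤ n := Nat.cast_nonneg _
  have hd0 : 0 ≤ d := Nat.cast_nonneg _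
  have hl4 : 0 ≤ Real.log 4 := Real.log_nonneg (by norm_num)
  have e8 : kk * (n * d * Real.log 4) ≤ (g + 1) * (n * d * Real.log 4) :=
    mul_le_mul_of_nonneg_right hk1 (by positivity)
  have e8' : (n * d) * ((g + 1) * Real.log 4 + 2 * cg g) ≤ (n * d) * (8 * g) :=
    mul_le_mul_of_nonneg_left (cst_le hg) (by positivity)
  linarith

end Pool.Agent.H433.EV
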