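import Pool.Agent.H433.EV.Loc
import Pool.Agent.H433.HD.Tor

/-!
Multiplicities of primes.
-/

set_option autoImplicit false
set_option linter.unusedSectionVars false
set_option linter.unusedVariables false

open NumberField IsDedekindDomain Finset

namespace Pool.Agent.H433.EV

open Pool.Agent.H433.AC hiding Vf mem_Vf
open Pool.Agent.H433.HG hiding W Single single_units loc_gen loc_simple mu Smp Sng exs sum_exs
  norm_le mp_W_le Wne W_co W_rs norm_dl al_ht pl pl_ne mp_pl mp_single mu_eq_zero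
open Pool.Agent.H433.GT (mi le_mi span_ne le_mi_span log_absNorm mp_mul mp_prod mem_of_mul
  lt_pow le_of_simple log_Nm)

variable {g : ℕ} {K : Type} [Field K] [NumberField K]

/-- the minors are not zero -/
def Dn (α β : Fin (2 * g + 1 + 1) → 𝓞 K) : Prop := ∀ q ∈ prs (2 * g + 1 + 1), mn α β q ≠ 0

/-- the product of the minors -/
def Pn (α β : Fin (2 * g + 1 + 1) → 𝓞 K) : 𝓞 K := ∏ q ∈ prs (2 * g + 1 + 1), mn α β q

variable {α β : Fin (2 * g + 1 + 1) → 𝓞 K}

theorem Pn_ne (h : Dn α β) : Pn α β ≠ 0 := prod_ne_zero_iff.2 fun q hq => h q hq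

theorem mn_co (α β : Fin (2 * g + 1 + 1) → 𝓞 K)
    (q : Fin (2 * g + 1 + 1) × Fin (2 * g + 1 + 1)) :
    ((mn α β q : 𝓞 K) : K) = mn (fun i => (α i : K)) (fun i => (β i : K)) q := by
  unfold mn
  simp

theorem Dn.co (h : Dn α β) : ∀ q ∈ prs (2 * g + 1 + 1),
    mn (fun i => (α i : K)) (fun i => (β i : K)) q ≠ 0 := fun q hq => by
  rw [← mn_co]
  have := h q hq
  exact_mod_cast this

/-- the sum of the multiplicities of a prime in the minors -/
noncomputable def mu (α β : Fin (2 * g + 1 + 1) → 𝓞 K) (v : HeightOneSpectrum (𝓞 K)) : ℕ :=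
  ∑ q ∈ prs (2 * g + 1 + 1), mp v (mn α β q)

theorem mp_Pn (h : Dn α β) (v : HeightOneSpectrum (𝓞 K)) : mp v (Pn α β) = mu α β v :=
  mp_prod _ _ fun q hq => h q hq

theorem W_co (S : Finset (Fin (2 * g + 1))) :
    ((W α β S : 𝓞 K) : K) = W (fun i => (α i : K)) (fun i => (β i : K)) S := by
  unfold W
  push_cast
  exact prod_congr rfl fun q _ => mn_co α β q

theorem Wne (h : Dn α β) (S : Finset (Fin (2 * g + 1))) : W α β S ≠ 0 :=
  prod_ne_zero_iff.2 fun q hq => h q (Gp_sub _ hq)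

theorem mp_W_le (h : Dn α β) (v : HeightOneSpectrum (𝓞 K)) (S : Finset (Fin (2 * g + 1))) :
    mp v (W α β S) ≤ mu α β v := by
  unfold W mu
  rw [mp_prod _ _ fun q hq => h q (Gp_sub _ hq)]
  exact sum_le_sum_of_subset (Gp_sub _)

/-- the general local estimate -/
theorem loc_gen (h : Dn α β) {z : Finset (Fin (2 * g + 1)) → 𝓞 K}
    {v : HeightOneSpectrum (𝓞 K)} {m : ℕ} {S : Finset (Fin (2 * g + 1))}
    (hz : z S ∉ v.asIdeal ^ (m + 1)) : W α β S * z S ^ 2 ∉ v.asIdeal ^ (2 * m + mu α β v + 1) := by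
  have hz0 : z S ≠ 0 := by
    intro h0
    rw [h0] at hz
    exact hz (Ideal.zero_mem _)
  rw [le_mp hz0] at hz
  rw [le_mp (mul_ne_zero (Wne h S) (pow_ne_zero 2 hz0)), mp_mul (Wne h S) (pow_ne_zero 2 hz0),
    pow_two, mp_mul hz0 hz0]
  have := mp_W_le h v S
  omega

/-- Exactly two points are congruent. -/
def Single (α β : Fin (2 * g + 1 + 1) → 𝓞 K) (p : Fin (2 * g + 1 + 1) × Fin (2 * g + 1 + 1))
    (v : HeightOneSpectrum (𝓞 K)) : Prop :=
  mn α β p ∈ v.asIdeal ∧ ∀ q ∈ prs (2 * g + 1 + 1), mn α β q ∈ v.asIdeal → q = p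

/-- exactly two points are congruent modulo `v` -/
def Sng (α β : Fin (2 * g + 1 + 1) → 𝓞 K) (v : HeightOneSpectrum (𝓞 K)) : Prop :=
  ∃ p ∈ prs (2 * g + 1 + 1), Single α β p v

/-- the place is simple -/
def Smp (α β : Fin (2 * g + 1 + 1) → 𝓞 K) (v : HeightOneSpectrum (𝓞 K)) : Prop :=
  ∃ p ∈ prs (2 * g + 1 + 1), Single α β p v ∧ mn α β p ∉ v.asIdeal ^ 2

/-- the minors are units, up to one -/
theorem single_units {v : HeightOneSpectrum (𝓞 K)}
    {p : Fin (2 * g + 1 + 1) × Fin (2 * g + 1 + 1)} (hs : Single α β p v) :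
    Unit1 (v.valuation K) (fun i => (α i : K)) (fun i => (β i : K)) p := by
  intro i j hij h1 h2
  rcases lt_or_gt_of_ne hij with hlt | hlt
  · rw [← mn_co]
    refine (v.valuation_eq_one_iff_notMem (K := K)).2 fun hm => ?_
    have := hs.2 (i, j) (mem_prs.2 hlt) hm
    exact h1 ⟨by rw [← this], by rw [← this]⟩
  · have e1 := mn_swap (fun i => (α i : K)) (fun i => (β i : K)) (j, i)
    rw [Prod.swap_prod_mk] at e1
    rw [e1, Valuation.map_neg, ← mn_co]
    refine (v.valuation_eq_one_iff_notMem (K := K)).2 fun hm => ?_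
    have := hs.2 (j, i) (mem_prs.2 hlt) hm
    exact h2 ⟨by rw [← this], by rw [← this]⟩

theorem not_W {v : HeightOneSpectrum (𝓞 K)} {p : Fin (2 * g + 1 + 1) × Fin (2 * g + 1 + 1)}
    (hs : Single α β p v) {S : Finset (Fin (2 * g + 1))} (hsep : Sep S p) :
    W α β S ∉ v.asIdeal := by
  unfold W
  intro hm
  obtain ⟨q, hq, hqv⟩ := (Ideal.IsPrime.prod_mem_iff (hp := v.isPrime)).1 hm
  have := hs.2 q (Gp_sub _ hq) hqv
  rw [this] at hq
  exact hsep (mem_filter.1 hq).2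

theorem not_Wz {v : HeightOneSpectrum (𝓞 K)} {z w : 𝓞 K} {m : ℕ} (h1 : w ∉ v.asIdeal)
    (h2 : z ∉ v.asIdeal ^ (m + 1)) : w * z ^ 2 ∉ v.asIdeal ^ (2 * m + 1) := by
  intro hcon
  rcases v.isPrime.mul_mem_pow _ hcon with h3 | h3
  · exact h1 h3
  · rcases eq_or_ne z 0 with h0 | h0
    · rw [h0] at h2
      exact h2 (Ideal.zero_mem _)
    · rw [le_mp (pow_ne_zero 2 h0), pow_two, mp_mul h0 h0] at h3
      rw [le_mp h0] at h2
      omega

/-- the local estimate at a simple place -/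
theorem loc_simple (h : Dn α β) {b : Fin (2 * g + 1) → K}
    (hb : Coord (fun i => (α i : K)) (fun i => (β i : K)) b)
    {z : Finset (Fin (2 * g + 1)) → 𝓞 K} {t : K} (hL : Linear b fun S => (z S : K))
    (hS : ∀ S ∈ Sp g, ∃ q, (z S : K) = t * q ^ 2) {v : HeightOneSpectrum (𝓞 K)}
    {p : Fin (2 * g + 1 + 1) × Fin (2 * g + 1 + 1)} (hp : p ∈ prs (2 * g + 1 + 1))
    (hs : Single α β p v) (hp2 : mn α β p ∉ v.asIdeal ^ 2)
    {m : ℕ} (hz : ∀ S ∈ Sp g, z S ∈ v.asIdeal ^ m) {S₀ : Finset (Fin (2 * g + 1))}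
    (hS₀ : S₀ ∈ Sp g) (hz' : z S₀ ∉ v.asIdeal ^ (m + 1)) :
    ∃ S ∈ Sp g, W α β S * z S ^ 2 ∉ v.asIdeal ^ (2 * m + 1) := by
  have hpd := mem_prs.1 hp
  have hd0 : v.valuation K (mn (fun i => (α i : K)) (fun i => (β i : K)) p) ≠ 0 := by
    rw [Ne, map_eq_zero]
    exact h.co p hp
  have hd1 : v.valuation K (mn (fun i => (α i : K)) (fun i => (β i : K)) p) < 1 := by
    rw [← mn_co]
    exact (v.valuation_lt_one_iff_mem (K := K) _).2 hs.1
  have hd (x : K) (hx : v.valuation K x < 1) :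
      v.valuation K x ≤ v.valuation K (mn (fun i => (α i : K)) (fun i => (β i : K)) p) := by
    rw [← mn_co]
    exact le_of_simple hp2 hx
  have hr : v.valuation K (z S₀ : K) = WithZero.exp (-(m : ℤ)) := by
    refine le_antisymm ((Pool.Agent.H433.GT.mem_pow _ _).1 (hz S₀ hS₀)) ?_
    by_contra hlt
    rw [not_le] at hlt
    exact hz' ((lt_pow _ _).2 hlt)
  obtain ⟨S, hSp, hsep, hle⟩ := loc_sep (w := v.valuation K) hb hpd (single_units hs) hd0 hd1 hd
    hL hS (WithZero.coe_ne_zero) hS₀ hr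
  refine ⟨S, hSp, not_Wz (not_W hs hsep) ?_⟩
  rw [lt_pow, not_lt]
  exact hle

/-- the pair of the finite points -/
def e2 (p : Fin (2 * g + 1) × Fin (2 * g + 1)) : Fin (2 * g + 1 + 1) × Fin (2 * g + 1 + 1) :=
  (p.1.castSucc, p.2.castSucc)

theorem e2_inj : Function.Injective (e2 (g := g)) := fun p q h => by
  have h1 := congrArg Prod.fst h
  have h2 := congrArg Prod.snd h
  exact Prod.ext (Fin.castSucc_injective _ h1) (Fin.castSucc_injective _ h2)

theorem e2_mem {p : Fin (2 * g + 1) × Fin (2 * g + 1)} (hp : p ∈ prs (2 * g + 1)) :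
    e2 p ∈ prs (2 * g + 1 + 1) := mem_prs.2 (Fin.castSucc_lt_castSucc_iff.2 (mem_prs.1 hp))

/-- the iterated differences, at a place where exactly two points are congruent -/
theorem dl_single (h : Dn α β) {b : Fin (2 * g + 1) → K}
    (hb : Coord (fun i => (α i : K)) (fun i => (β i : K)) b)
    {z : Finset (Fin (2 * g + 1)) → 𝓞 K} {y : K} (hL : Linear b fun S => (z S : K))
    {v : HeightOneSpectrum (𝓞 K)} {l : List (Fin (2 * g + 1) × Fin (2 * g + 1))}
    {B : Finset (Fin (2 * g + 1))} (hB : Apart l B)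
    (hy : y = dl (fun S => (z S : K)) l B) {m : ℕ}
    (hz : ∀ S ∈ Sp g, ∀ S' ∈ Sp g, z S - z S' ∈ v.asIdeal ^ m)
    {p : Fin (2 * g + 1) × Fin (2 * g + 1)} (hs : Single α β (e2 p) v) (hp : p ∈ l) :
    v.valuation K y ≤ WithZero.exp (-((m + mp v (mn α β (e2 p)) : ℕ) : ℤ)) := by
  have hpd := (hB.2.1 p hp).1
  have hinj := coord_inj h.co hb
  rw [hy]
  have h1 : v.valuation K (mn (fun i => (α i : K)) (fun i => (β i : K)) (e2 p)) *
      WithZero.exp (-(m : ℤ)) ≤
      WithZero.exp (-((m + mp v (mn α β (e2 p)) : ℕ) : ℤ)) := by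
    have h2 : v.valuation K (mn (fun i => (α i : K)) (fun i => (β i : K)) (e2 p)) ≤
        WithZero.exp (-((mp v (mn α β (e2 p)) : ℕ) : ℤ)) := by
      rw [← mn_co]
      refine (Pool.Agent.H433.GT.mem_pow _ _).1 ?_
      rw [le_mp (h _ (e2_mem (mem_prs.2 hpd)))]
    calc v.valuation K (mn (fun i => (α i : K)) (fun i => (β i : K)) (e2 p)) *
          WithZero.exp (-(m : ℤ))
        ≤ WithZero.exp (-((mp v (mn α β (e2 p)) : ℕ) : ℤ)) * WithZero.exp (-(m : ℤ)) := by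
          exact mul_le_mul_left h2 _
      _ = WithZero.exp (-((m + mp v (mn α β (e2 p)) : ℕ) : ℤ)) := by
          rw [← WithZero.exp_add]
          congr 1
          push_cast
          ring
  refine dl_le_mem (p := p) (fun T hT h2 h3 => ?_) l B hB hp
  refine (loc_dif (w := v.valuation K) (i₀ := p.1) (j₀ := p.2) hb hinj hpd.ne (single_units hs) hL
    hT h2 h3 (r := WithZero.exp (-(m : ℤ))) fun S hS S' hS' => ?_).trans h1
  have h4 := (Pool.Agent.H433.GT.mem_pow (z S - z S') m).1 (hz S hS S' hS')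
  push_cast at h4
  exact h4

/-- the primes which divide a minor -/
noncomputable def Vf (h : Dn α β) : Finset (HeightOneSpectrum (𝓞 K)) :=
  (finite_mem (Pn_ne h)).toFinset

theorem mem_Vf' (h : Dn α β) {v : HeightOneSpectrum (𝓞 K)} : v ∈ Vf h ↔ Pn α β ∈ v.asIdeal := by
  unfold Vf
  rw [Set.Finite.mem_toFinset]
  rfl

theorem mem_Vf (h : Dn α β) {v : HeightOneSpectrum (𝓞 K)}
    {q : Fin (2 * g + 1 + 1) × Fin (2 * g + 1 + 1)} (hq : q ∈ prs (2 * g + 1 + 1))
    (hv : mn α β q ∈ v.asIdeal) : v ∈ Vf h := by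
  rw [mem_Vf']
  exact (Ideal.IsPrime.prod_mem_iff (hp := v.isPrime)).2 ⟨q, hq, hv⟩

open Classical in
/-- the contribution of the places without the property `P` -/
noncomputable def exs (h : Dn α β) (P : HeightOneSpectrum (𝓞 K) → Prop) : ℝ :=
  ∑ v ∈ Vf h, (if P v then 0 else (mu α β v : ℝ)) * Real.log (nv v)

theorem mu_eq_zero (h : Dn α β) {v : HeightOneSpectrum (𝓞 K)} (hv : v ∉ Vf h) :
    mu α β v = 0 := by
  unfold mu
  refine sum_eq_zero fun q hq => ?_
  by_contra hne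
  exact hv (mem_Vf h hq ((mem_iff_mp (h q hq)).2 (by omega)))

theorem sum_exs (h : Dn α β) {V : Finset (HeightOneSpectrum (𝓞 K))}
    (hVf : Vf h ⊆ V) {P : HeightOneSpectrum (𝓞 K) → Prop} (f : HeightOneSpectrum (𝓞 K) → ℝ)
    (h1 : ∀ v, f v ≤ mu α β v) (h2 : ∀ v, P v → f v ≤ 0) :
    ∑ v ∈ V, f v * Real.log (nv v) ≤ exs h P := by
  classical
  have e1 : exs h P = ∑ v ∈ V, (if P v then 0 else (mu α β v : ℝ)) * Real.log (nv v) := by
    unfold exs
    refine sum_subset hVf fun v _ hv => ?_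
    rw [mu_eq_zero h hv]
    simp
  rw [e1]
  refine sum_le_sum fun v _ => mul_le_mul_of_nonneg_right ?_ (log_nv_pos v).le
  split_ifs with hP
  · exact h2 v hP
  · exact h1 v

theorem exs_anti (h : Dn α β) {P Q : HeightOneSpectrum (𝓞 K) → Prop} (hPQ : ∀ v, P v → Q v) :
    exs h Q ≤ exs h P := by
  classical
  unfold exs
  refine sum_le_sum fun v _ => mul_le_mul_of_nonneg_right ?_ (log_nv_pos v).le
  by_cases hP : P v
  · rw [if_pos hP, if_pos (hPQ v hP)]
  · rw [if_neg hP]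
    split_ifs
    · exact Nat.cast_nonneg _
    · exact le_rfl

/-- a general estimate for ideals -/
theorem norm_le (h : Dn α β) {P : HeightOneSpectrum (𝓞 K) → Prop}
    {I J : Ideal (𝓞 K)} (hI : I ≠ ⊥) (hJ : J ≠ ⊥)
    (h1 : ∀ v : HeightOneSpectrum (𝓞 K), mi v J ≤ 2 * mi v I + mu α β v)
    (h2 : ∀ v : HeightOneSpectrum (𝓞 K), P v → mi v J ≤ 2 * mi v I) :
    Real.log (Ideal.absNorm J) ≤ 2 * Real.log (Ideal.absNorm I) + exs h P := by
  classical
  set V : Finset (HeightOneSpectrum (𝓞 K)) := (Ideal.finite_factors hI).toFinset ∪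
    ((Ideal.finite_factors hJ).toFinset ∪ Vf h) with hV
  have hVI (v : HeightOneSpectrum (𝓞 K)) (hv : v.asIdeal ∣ I) : v ∈ V := by
    rw [hV, mem_union, Set.Finite.mem_toFinset]
    exact Or.inl hv
  have hVJ (v : HeightOneSpectrum (𝓞 K)) (hv : v.asIdeal ∣ J) : v ∈ V := by
    rw [hV, mem_union, mem_union, Set.Finite.mem_toFinset, Set.Finite.mem_toFinset]
    exact Or.inr (Or.inl hv)
  have hVf : Vf h ⊆ V := fun v hv => by
    rw [hV, mem_union, mem_union]
    exact Or.inr (Or.inr hv)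
  rw [log_absNorm hI V hVI, log_absNorm hJ V hVJ]
  have h3 := sum_exs h hVf (P := P) (fun v => (mi v J : ℝ) - 2 * mi v I) (fun v => ?_)
    fun v hs => ?_
  · have h4 : ∑ v ∈ V, ((mi v J : ℝ) - 2 * mi v I) * Real.log (nv v) =
        ∑ v ∈ V, (mi v J : ℝ) * Real.log (nv v) -
          2 * ∑ v ∈ V, (mi v I : ℝ) * Real.log (nv v) := by
      rw [mul_sum, ← sum_sub_distrib]
      exact sum_congr rfl fun v _ => by ring
    rw [h4] at h3
    linarith
  · have h5 : (mi v J : ℝ) ≤ 2 * mi v I + mu α β v := by exact_mod_cast h1 v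
    linarith
  · have h5 : (mi v J : ℝ) ≤ 2 * mi v I := by exact_mod_cast h2 v hs
    linarith

/-- the condition at a place -/
def Good (α β : Fin (2 * g + 1 + 1) → 𝓞 K) (y : Finset (Fin (2 * g + 1)) → K)
    (v : HeightOneSpectrum (𝓞 K)) : Prop :=
  Smp α β v ∧ HD.Sqs y ∨ Sng α β v ∧ Ident α β y v

/-- the ideal of the fourth powers of the theta functions -/
theorem norm_al (h : Dn α β) {b : Fin (2 * g + 1) → K}
    (hb : Coord (fun i => (α i : K)) (fun i => (β i : K)) b)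
    {z : Finset (Fin (2 * g + 1)) → 𝓞 K}
    {S₀ : Sp g} (h0 : z S₀ ≠ 0) (hL : Linear b fun S => (z S : K))
    {P : HeightOneSpectrum (𝓞 K) → Prop}
    (hI : ∀ v, P v → Good α β (fun S => (z S : K)) v) :
    Real.log (Ideal.absNorm (Ideal.span (Set.range fun S : Sp g => W α β S * z S ^ 2))) ≤
      2 * Real.log (Ideal.absNorm (Ideal.span (Set.range fun S : Sp g => z S))) + exs h P := by
  obtain ⟨zz, hzz⟩ : ∃ zz : Sp g → 𝓞 K, zz = fun S : Sp g => z S := ⟨_, rfl⟩
  obtain ⟨ww, hww⟩ : ∃ ww : Sp g → 𝓞 K, ww = fun S : Sp g => W α β S * z S ^ 2 := ⟨_, rfl⟩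
  have ez (S : Sp g) : zz S = z S := by rw [hzz]
  have ew (S : Sp g) : ww S = W α β S * z S ^ 2 := by rw [hww]
  have hb0 : zz S₀ ≠ 0 := by rwa [ez]
  have hb' : ww S₀ ≠ 0 := by
    rw [ew]
    exact mul_ne_zero (Wne h _) (pow_ne_zero 2 h0)
  rw [← hzz, ← hww]
  have key (v : HeightOneSpectrum (𝓞 K)) : ∃ S : Sp g, z S ∉ v.asIdeal ^
      (mi v (Ideal.span (Set.range zz)) + 1) := by
    have h1 := (le_mi_span (v := v) hb0 (mi v (Ideal.span (Set.range zz)) + 1)).not.1 (by omega)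
    push Not at h1
    obtain ⟨S, hS⟩ := h1
    exact ⟨S, by rwa [ez] at hS⟩
  refine norm_le h (span_ne hb0) (span_ne hb') (fun v => ?_) fun v hPv => ?_
  · obtain ⟨S, hS⟩ := key v
    have h1 := loc_gen h hS
    by_contra hcon
    rw [not_le] at hcon
    have h2 := (le_mi_span hb' _).1 hcon S
    rw [ew] at h2
    exact h1 h2
  · obtain ⟨S, hS'⟩ := key v
    rcases hI v hPv with ⟨⟨p, hp, hs, hs2⟩, t, hSq⟩ | ⟨⟨p, hp, hs⟩, hId⟩
    · have h3 := (le_mi_span (v := v) hb0 _).1 le_rfl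
      obtain ⟨S', hSp', h1⟩ := loc_simple h hb hL hSq hp hs hs2 (fun T hT => by
        have h4 := h3 ⟨T, hT⟩
        rwa [ez] at h4) S.2 hS'
      by_contra hcon
      rw [not_le] at hcon
      have h2 := (le_mi_span hb' _).1 hcon ⟨S', hSp'⟩
      rw [ew] at h2
      exact h1 h2
    obtain ⟨S₁, hS₁, hsep, hmax⟩ := hId p (mem_prs.1 hp) hs.1
    have h2 : z S₁ ∉ v.asIdeal ^ (mi v (Ideal.span (Set.range zz)) + 1) := by
      intro hm
      apply hS'
      rw [Pool.Agent.H433.GT.mem_pow] at hm ⊢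
      exact (hmax S S.2).trans hm
    by_contra hcon
    rw [not_le] at hcon
    have h4 := (le_mi_span hb' _).1 hcon ⟨S₁, hS₁⟩
    rw [ew] at h4
    exact not_Wz (not_W hs hsep) h2 h4

theorem mp_single (h : Dn α β) {v : HeightOneSpectrum (𝓞 K)}
    {p : Fin (2 * g + 1 + 1) × Fin (2 * g + 1 + 1)} (hs : Single α β p v)
    {q : Fin (2 * g + 1 + 1) × Fin (2 * g + 1 + 1)} (hq : q ∈ prs (2 * g + 1 + 1)) :
    mp v (mn α β q) = if q = p then mp v (mn α β p) else 0 := by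
  split_ifs with hqp
  · rw [hqp]
  · by_contra hne
    have h1 : 1 ≤ mp v (mn α β q) := by omega
    exact hqp (hs.2 q hq ((mem_iff_mp (h q hq)).2 h1))

/-- the product of the minors of the pairs in a list -/
def pl (α β : Fin (2 * g + 1 + 1) → 𝓞 K) (l : List (Fin (2 * g + 1) × Fin (2 * g + 1))) : 𝓞 K :=
  ∏ q ∈ l.toFinset.map ⟨e2, e2_inj⟩, mn α β q

theorem pl_sub {l : List (Fin (2 * g + 1) × Fin (2 * g + 1))} {B : Finset (Fin (2 * g + 1))}
    (hB : Apart l B) : l.toFinset.map ⟨e2, e2_inj⟩ ⊆ prs (2 * g + 1 + 1) := by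
  intro q hq
  obtain ⟨p, hp, rfl⟩ := mem_map.1 hq
  exact e2_mem (apart_sub hB hp)

theorem pl_ne (h : Dn α β) {l : List (Fin (2 * g + 1) × Fin (2 * g + 1))}
    {B : Finset (Fin (2 * g + 1))} (hB : Apart l B) : pl α β l ≠ 0 :=
  prod_ne_zero_iff.2 fun q hq => h q (pl_sub hB hq)

theorem mp_pl (h : Dn α β) (v : HeightOneSpectrum (𝓞 K))
    {l : List (Fin (2 * g + 1) × Fin (2 * g + 1))} {B : Finset (Fin (2 * g + 1))}
    (hB : Apart l B) :
    mp v (pl α β l) = ∑ q ∈ l.toFinset.map ⟨e2, e2_inj⟩, mp v (mn α β q) :=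
  mp_prod _ _ fun q hq => h q (pl_sub hB hq)

/-- the norm of an iterated difference -/
theorem norm_dl (h : Dn α β) {b : Fin (2 * g + 1) → K}
    (hb : Coord (fun i => (α i : K)) (fun i => (β i : K)) b)
    {y : Finset (Fin (2 * g + 1)) → K}
    {z : Finset (Fin (2 * g + 1)) → 𝓞 K} {c : K} (hc : c ≠ 0) (hz : ∀ b, (z b : K) = c * y b)
    {S₀ : Sp g} (h0 : z S₀ ≠ 0) (hL : Linear b fun S => (z S : K))
    {l : List (Fin (2 * g + 1) × Fin (2 * g + 1))} {B : Finset (Fin (2 * g + 1))} (hl : l ≠ [])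
    (hB : Apart l B) {δ : 𝓞 K} (hδ : (δ : K) = dl (fun S => (z S : K)) l B) (hδ0 : δ ≠ 0)
    {S₁ : Finset (HeightOneSpectrum (𝓞 K))} (hS₁ : ∀ v ∈ S₁, Zero y v) :
    Real.log (Ideal.absNorm (Ideal.span (Set.range fun S : Sp g => z S))) +
      ∑ v ∈ S₁, Real.log (nv v) + Real.log (Nm (pl α β l)) ≤
      Real.log (Nm δ) + exs h (Sng α β) := by
  classical
  obtain ⟨zz, hzz⟩ : ∃ zz : Sp g → 𝓞 K, zz = fun S : Sp g => z S := ⟨_, rfl⟩
  have ez (S : Sp g) : zz S = z S := by rw [hzz]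
  have hb0 : zz S₀ ≠ 0 := by rwa [ez]
  rw [← hzz]
  have hI := span_ne hb0
  have hpl := pl_ne h hB
  set V : Finset (HeightOneSpectrum (𝓞 K)) := (Ideal.finite_factors hI).toFinset ∪
    (S₁ ∪ ((finite_mem hδ0).toFinset ∪ Vf h)) with hV
  have hVf : Vf h ⊆ V := fun v hv => by
    rw [hV, mem_union, mem_union, mem_union]
    exact Or.inr (Or.inr (Or.inr hv))
  have e1 := log_absNorm hI V fun v hv => by
    rw [hV, mem_union, Set.Finite.mem_toFinset]
    exact Or.inl hv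
  have e2' := log_Nm hδ0 V fun v hv => by
    rw [hV, mem_union, mem_union, mem_union]
    refine Or.inr (Or.inr (Or.inl ?_))
    rw [Set.Finite.mem_toFinset]
    exact hv
  have e3 := log_Nm hpl V fun v hv => by
    obtain ⟨q, hq, hqv⟩ := (Ideal.IsPrime.prod_mem_iff (hp := v.isPrime)).1 hv
    exact hVf (mem_Vf h (pl_sub hB hq) hqv)
  have hSV : S₁ ⊆ V := fun v hv => by
    rw [hV, mem_union, mem_union]
    exact Or.inr (Or.inl hv)
  have e4 : ∑ v ∈ S₁, Real.log (nv v) =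
      ∑ v ∈ V, (if v ∈ S₁ then (1 : ℝ) else 0) * Real.log (nv v) := by
    have : ∀ v ∈ V, (if v ∈ S₁ then (1 : ℝ) else 0) * Real.log (nv v) =
        if v ∈ S₁ then Real.log (nv v) else 0 := fun v _ => by split_ifs <;> simp
    rw [sum_congr rfl this, ← sum_filter, filter_mem_eq_inter, inter_eq_right.2 hSV]
  -- the local estimates
  have hdif (v : HeightOneSpectrum (𝓞 K)) : ∀ S ∈ Sp g, ∀ S' ∈ Sp g, z S - z S' ∈
      v.asIdeal ^ (mi v (Ideal.span (Set.range zz)) + if v ∈ S₁ then 1 else 0) := by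
    intro S hS S' hS'
    have h1 := (le_mi_span (v := v) hb0 _).1 le_rfl
    have h2 := h1 ⟨S, hS⟩
    have h3 := h1 ⟨S', hS'⟩
    rw [ez] at h2 h3
    split_ifs with hv
    · rw [lt_pow]
      have h4 := hS₁ v hv S hS S' hS'
      have h5 := (Pool.Agent.H433.GT.mem_pow _ _).1 h2
      refine lt_of_lt_of_le ?_ h5
      push_cast
      show v.valuation K ((z S : K) - (z S' : K)) < v.valuation K (z S : K)
      rw [hz S, hz S', ← mul_sub, map_mul, map_mul]
      exact (mul_lt_mul_iff_of_pos_left (zero_lt_iff.2 (by rwa [Ne, map_eq_zero]))).2 h4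
    · rw [add_zero]
      exact Ideal.sub_mem _ h2 h3
  have hδv (v : HeightOneSpectrum (𝓞 K)) :
      mi v (Ideal.span (Set.range zz)) + (if v ∈ S₁ then 1 else 0) ≤ mp v δ := by
    rw [← le_mp hδ0, Pool.Agent.H433.GT.mem_pow]
    exact dl_gen hl hB hδ (hdif v) S₀.2
  have key := sum_exs h hVf (P := Sng α β) (fun v => (mi v (Ideal.span (Set.range zz)) : ℝ) +
    (if v ∈ S₁ then (1 : ℝ) else 0) + mp v (pl α β l) - mp v δ) (fun v => ?_)
    fun v ⟨p, hp, hs⟩ => ?_
  · have e5 : ∑ v ∈ V, ((mi v (Ideal.span (Set.range zz)) : ℝ) +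
        (if v ∈ S₁ then (1 : ℝ) else 0) + mp v (pl α β l) - mp v δ) * Real.log (nv v) =
        ∑ v ∈ V, (mi v (Ideal.span (Set.range zz)) : ℝ) * Real.log (nv v) +
        ∑ v ∈ V, (if v ∈ S₁ then (1 : ℝ) else 0) * Real.log (nv v) +
        ∑ v ∈ V, (mp v (pl α β l) : ℝ) * Real.log (nv v) -
        ∑ v ∈ V, (mp v δ : ℝ) * Real.log (nv v) := by
      rw [← sum_add_distrib, ← sum_add_distrib, ← sum_sub_distrib]
      exact sum_congr rfl fun v _ => by ring
    rw [e5, ← e1, ← e2', ← e3, ← e4] at key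
    linarith
  · have h1 := hδv v
    have h2 : mp v (pl α β l) ≤ mu α β v := by
      rw [mp_pl h v hB]
      exact sum_le_sum_of_subset (pl_sub hB)
    have h3 : (mi v (Ideal.span (Set.range zz)) : ℝ) + (if v ∈ S₁ then (1 : ℝ) else 0) ≤
        mp v δ := by
      have : ((mi v (Ideal.span (Set.range zz)) + (if v ∈ S₁ then 1 else 0) : ℕ) : ℝ) ≤
          mp v δ := by exact_mod_cast h1
      push_cast at this
      exact this
    have h4 : (mp v (pl α β l) : ℝ) ≤ mu α β v := by exact_mod_cast h2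
    linarith
  · have h2 : mp v (pl α β l) = if p ∈ l.toFinset.map ⟨e2, e2_inj⟩ then mp v (mn α β p) else 0 := by
      rw [mp_pl h v hB, sum_congr rfl fun q hq => mp_single h hs (pl_sub hB hq),
        sum_ite_eq']
    have h3 : mi v (Ideal.span (Set.range zz)) + (if v ∈ S₁ then 1 else 0) +
        (if p ∈ l.toFinset.map ⟨e2, e2_inj⟩ then mp v (mn α β p) else 0) ≤ mp v δ := by
      by_cases hpl : p ∈ l.toFinset.map ⟨e2, e2_inj⟩
      · rw [if_pos hpl, ← le_mp hδ0, Pool.Agent.H433.GT.mem_pow]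
        obtain ⟨p', hp', rfl⟩ := mem_map.1 hpl
        exact dl_single h hb hL hB hδ (hdif v) hs (List.mem_toFinset.1 hp')
      · rw [if_neg hpl, add_zero]
        exact hδv v
    rw [h2]
    have : ((mi v (Ideal.span (Set.range zz)) + (if v ∈ S₁ then 1 else 0) +
        (if p ∈ l.toFinset.map ⟨e2, e2_inj⟩ then mp v (mn α β p) else 0) : ℕ) : ℝ) ≤ mp v δ := by
      exact_mod_cast h3
    push_cast at this ⊢
    linarith

/-- the height in terms of integral vectors -/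
theorem al_ht (h : Dn α β) {b : Fin (2 * g + 1) → K}
    (hb : Coord (fun i => (α i : K)) (fun i => (β i : K)) b)
    {y : Finset (Fin (2 * g + 1)) → K} {z : Finset (Fin (2 * g + 1)) → 𝓞 K} {c : K} (hc : c ≠ 0)
    (hz : ∀ b, (z b : K) = c * y b) :
    ht (al b y) = Height.logHeight fun S : Sp g => ((W α β S * z S ^ 2 : 𝓞 K) : K) := by
  obtain ⟨D, hD0, hW'⟩ := W_rs h.co hb
  have h1 (S : Sp g) := hW' (S : Finset (Fin (2 * g + 1))) S.2
  choose e he hW using h1
  have h2 : (fun S : Sp g => ((W α β S * z S ^ 2 : 𝓞 K) : K)) =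
      (D * c ^ 2) • (e * fun S : Sp g => al b y S) := by
    funext S
    show ((W α β S * z S ^ 2 : 𝓞 K) : K) = D * c ^ 2 *
      (e S * ((rs b (S : Finset (Fin (2 * g + 1))))⁻¹ * y S ^ 2))
    have e1 : ((W α β S * z S ^ 2 : 𝓞 K) : K) = ((W α β S : 𝓞 K) : K) * (z S : K) ^ 2 := by
      push_cast
      rfl
    rw [e1, W_co, hW, hz]
    ring
  rw [h2, Height.logHeight_smul_eq_logHeight _ (mul_ne_zero hD0 (pow_ne_zero 2 hc)),
    ht_sign _ _ he]
  rfl

/-- the height of the point of the moduli space -/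
theorem hm_eq (h : Dn α β) {b : Fin (2 * g + 1) → K}
    (hb : Coord (fun i => (α i : K)) (fun i => (β i : K)) b) :
    ht (fun S => (rs b S)⁻¹) = Height.logHeight fun S : Sp g => ((W α β S : 𝓞 K) : K) := by
  have h1 := al_ht h hb (y := fun _ => 1) (z := fun _ => 1) (c := 1) one_ne_zero (by simp)
  have h2 : ht (al b fun _ => 1) = ht (fun S => (rs b S)⁻¹) := by
    congr 1
    funext S
    unfold al
    ring
  rw [← h2, h1]
  congr 1
  funext S
  rw [one_pow, mul_one]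

end Pool.Agent.H433.EV
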