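import Pool.Agent.H433.EV.Def
import Pool.Agent.H433.HD.Diff

/-!
Combinatorics of the pairs.
-/

set_option autoImplicit false
set_option linter.unusedSectionVars false
set_option linter.unusedVariables false

open Finset

namespace Pool.Agent.H433.EV

open Pool.Agent.H433.AC Pool.Agent.H433.HG

section srt

variable {n : ℕ}

/-- the pairs which are not separated by `S` -/
def Gp (S : Finset (Fin n)) : Finset (Fin n × Fin n) :=
  (prs n).filter fun q => (q.1 ∈ S ↔ q.2 ∈ S)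

/-- the pairs which are separated by `S` -/
def Np (S : Finset (Fin n)) : Finset (Fin n × Fin n) :=
  (prs n).filter fun q => ¬ (q.1 ∈ S ↔ q.2 ∈ S)

theorem Gp_sub (S : Finset (Fin n)) : Gp S ⊆ prs n := filter_subset _ _

theorem Np_sub (S : Finset (Fin n)) : Np S ⊆ prs n := filter_subset _ _

theorem srt_mem {S : Finset (Fin n)} {p : Fin n × Fin n} (hp : p ∈ S ×ˢ Sᶜ) : srt p ∈ Np S := by
  rw [mem_product, mem_compl] at hp
  unfold srt Np
  rw [mem_filter, mem_prs]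
  have hne : p.1 ≠ p.2 := fun h => hp.2 (h ▸ hp.1)
  split_ifs with h
  · exact ⟨h, fun h' => hp.2 (h'.1 hp.1)⟩
  · exact ⟨lt_of_le_of_ne (not_lt.1 h) hne.symm, fun h' => hp.2 (h'.2 hp.1)⟩

theorem srt_inj {S : Finset (Fin n)} {p q : Fin n × Fin n}
    (hp : p ∈ S ×ˢ Sᶜ) (hq : q ∈ S ×ˢ Sᶜ) (h : srt p = srt q) : p = q := by
  rw [mem_product, mem_compl] at hp hq
  unfold srt at h
  split_ifs at h with h1 h2 h2
  · exact h
  · exact absurd hp.1 (h ▸ hq.2)
  · exact absurd hq.1 (h ▸ hp.2)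
  · exact Prod.swap_injective h

theorem srt_surj {S : Finset (Fin n)} {q : Fin n × Fin n}
    (hq : q ∈ Np S) : ∃ p, ∃ _ : p ∈ S ×ˢ Sᶜ, srt p = q := by
  unfold Np at hq
  rw [mem_filter, mem_prs] at hq
  obtain ⟨hlt, hs⟩ := hq
  by_cases h1 : q.1 ∈ S
  · have h2 : q.2 ∉ S := fun h2 => hs ⟨fun _ => h2, fun _ => h1⟩
    exact ⟨q, mem_product.2 ⟨h1, mem_compl.2 h2⟩, by unfold srt; rw [if_pos hlt]⟩
  · have h2 : q.2 ∈ S := by
      by_contra h2
      exact hs ⟨fun h => absurd h h1, fun h => absurd h h2⟩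
    refine ⟨q.swap, mem_product.2 ⟨h2, mem_compl.2 h1⟩, ?_⟩
    unfold srt
    rw [if_neg (by simpa using hlt.le), Prod.swap_swap]

theorem prod_Np {R : Type*} [CommMonoid R] (S : Finset (Fin n)) (F : Fin n × Fin n → R) :
    ∏ q ∈ Np S, F q = ∏ p ∈ S ×ˢ Sᶜ, F (srt p) :=
  (prod_bij (fun p _ => srt p) (fun p hp => srt_mem hp)
    (fun p hp q hq h => srt_inj hp hq h) (fun q hq => srt_surj hq) fun p _ => rfl).symm

theorem prod_GN {R : Type*} [CommMonoid R] (S : Finset (Fin n)) (F : Fin n × Fin n → R) :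
    (∏ q ∈ Gp S, F q) * ∏ q ∈ Np S, F q = ∏ q ∈ prs n, F q :=
  prod_filter_mul_prod_filter_not _ _ _

/-- the weights of the separated pairs -/
theorem weight_Np (S : Finset (Fin n)) {k : ℕ} (h1 : S.card = k) (h2 : Sᶜ.card = k)
    (m : Fin n → ℝ) : ∏ q ∈ Np S, (m q.1 * m q.2) = (∏ i, m i) ^ k := by
  have e1 (p : Fin n × Fin n) : m (srt p).1 * m (srt p).2 = m p.1 * m p.2 := by
    unfold srt
    split_ifs
    · rfl
    · exact mul_comm _ _
  rw [prod_Np S fun q => m q.1 * m q.2]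
  simp only [e1]
  rw [prod_mul_distrib]
  have e2 : ∏ p ∈ S ×ˢ Sᶜ, m p.1 = (∏ i ∈ S, m i) ^ k := by
    rw [prod_product, ← prod_pow]
    refine prod_congr rfl fun i _ => ?_
    show ∏ _j ∈ Sᶜ, m i = _
    rw [prod_const, h2]
  have e3 : ∏ p ∈ S ×ˢ Sᶜ, m p.2 = (∏ i ∈ Sᶜ, m i) ^ k := by
    rw [prod_product]
    show ∏ _i ∈ S, ∏ j ∈ Sᶜ, m j = _
    rw [prod_const, h1]
  rw [e2, e3, ← mul_pow, prod_mul_prod_compl]

/-- the weights of all pairs -/
theorem weight_all (m : Fin n → ℝ) : ∏ q ∈ prs n, (m q.1 * m q.2) = (∏ i, m i) ^ (n - 1) := by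
  have h1 := HD.prod_prs (R := ℝ) (n := n) fun i _ => m i
  rw [prod_mul_distrib, ← h1, ← prod_pow]
  refine prod_congr rfl fun i _ => ?_
  rw [prod_const, card_erase_of_mem (mem_univ _), card_univ, Fintype.card_fin]

end srt

variable {g : ℕ}

/-- the set of the points -/
def em (S : Finset (Fin (2 * g + 1))) : Finset (Fin (2 * g + 1 + 1)) := S.map Fin.castSuccEmb

theorem mem_em {S : Finset (Fin (2 * g + 1))} {i : Fin (2 * g + 1)} :
    i.castSucc ∈ em S ↔ i ∈ S := by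
  unfold em
  rw [mem_map]
  constructor
  · rintro ⟨j, hj, h⟩
    have : j = i := Fin.castSucc_injective _ h
    rwa [← this]
  · exact fun h => ⟨i, h, rfl⟩

theorem last_em (S : Finset (Fin (2 * g + 1))) : Fin.last (2 * g + 1) ∉ em S := by
  unfold em
  rw [mem_map]
  rintro ⟨j, _, h⟩
  exact absurd h (Fin.castSucc_lt_last j).ne

theorem card_em {S : Finset (Fin (2 * g + 1))} (hS : S ∈ Sp g) : (em S).card = g + 1 := by
  unfold em
  rw [card_map, mem_Sp.1 hS]

theorem card_emc {S : Finset (Fin (2 * g + 1))} (hS : S ∈ Sp g) : (em S)ᶜ.card = g + 1 := by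
  rw [card_compl, Fintype.card_fin, card_em hS]
  omega

theorem em_compl (S : Finset (Fin (2 * g + 1))) :
    (em S)ᶜ = insert (Fin.last (2 * g + 1)) (em Sᶜ) := by
  ext i
  rw [mem_compl, mem_insert]
  refine Fin.lastCases ?_ (fun j => ?_) i
  · exact ⟨fun _ => Or.inl rfl, fun _ => last_em S⟩
  · rw [mem_em, mem_em, mem_compl]
    exact ⟨Or.inr, fun h => h.resolve_left (Fin.castSucc_lt_last j).ne⟩

theorem prod_em {R : Type*} [CommMonoid R] (S : Finset (Fin (2 * g + 1)))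
    (F : Fin (2 * g + 1 + 1) → R) : ∏ i ∈ em S, F i = ∏ i ∈ S, F i.castSucc := by
  unfold em
  rw [prod_map]
  rfl

/-- the product over the pairs of points in different parts -/
theorem prod_cross {R : Type*} [CommMonoid R] (S : Finset (Fin (2 * g + 1)))
    (F : Fin (2 * g + 1 + 1) → Fin (2 * g + 1 + 1) → R) :
    ∏ p ∈ em S ×ˢ (em S)ᶜ, F p.1 p.2 = (∏ i ∈ S, F i.castSucc (Fin.last _)) *
      ∏ i ∈ S, ∏ j ∈ Sᶜ, F i.castSucc j.castSucc := by
  rw [prod_product' (f := F), em_compl, prod_em, ← prod_mul_distrib]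
  refine prod_congr rfl fun i _ => ?_
  rw [prod_insert (last_em _), prod_em]

variable {K : Type} [Field K]

/-- the product of the minors of the points in the same part -/
def W {R : Type*} [CommRing R] (α β : Fin (2 * g + 1 + 1) → R) (S : Finset (Fin (2 * g + 1))) : R :=
  ∏ q ∈ Gp (em S), mn α β q

theorem mn_swap {R : Type*} [CommRing R] (α β : Fin (2 * g + 1 + 1) → R)
    (q : Fin (2 * g + 1 + 1) × Fin (2 * g + 1 + 1)) : mn α β q.swap = -mn α β q := by
  unfold mn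
  simp only [Prod.fst_swap, Prod.snd_swap]
  ring

/-- the relation between the products -/
theorem W_rs {α β : Fin (2 * g + 1 + 1) → K} (h : ∀ q ∈ prs (2 * g + 1 + 1), mn α β q ≠ 0)
    {b : Fin (2 * g + 1) → K} (hb : Coord α β b) :
    ∃ d : K, d ≠ 0 ∧ ∀ S ∈ Sp g, ∃ e : K, e ^ 2 = 1 ∧ W α β S = d * (e * (rs b S)⁻¹) := by
  obtain ⟨c, hc, hbc⟩ := hb
  set P := ∏ q ∈ prs (2 * g + 1 + 1), mn α β q with hP
  set Q := ∏ i : Fin (2 * g + 1), mn α β (i.castSucc, Fin.last _) with hQ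
  have hP0 : P ≠ 0 := prod_ne_zero_iff.2 h
  have hi0 (i : Fin (2 * g + 1)) : mn α β (i.castSucc, Fin.last _) ≠ 0 :=
    h _ (mem_prs.2 (Fin.castSucc_lt_last i))
  have hQ0 : Q ≠ 0 := prod_ne_zero_iff.2 fun i _ => hi0 i
  refine ⟨P * c ^ ((g + 1) * g) / Q ^ (g + 1), by positivity, fun S hS => ?_⟩
  have hSc := card_co (mem_Sp.1 hS)
  -- the product of the differences
  have h1 : rs b S * Q ^ (g + 1) =
      c ^ ((g + 1) * g) * ∏ p ∈ em S ×ˢ (em S)ᶜ, mn α β (p.1, p.2) := by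
    have e1 : rs b S * ((∏ i ∈ S, mn α β (i.castSucc, Fin.last _)) ^ g *
        (∏ j ∈ Sᶜ, mn α β (j.castSucc, Fin.last _)) ^ (g + 1)) =
        c ^ ((g + 1) * g) * ∏ i ∈ S, ∏ j ∈ Sᶜ, mn α β (i.castSucc, j.castSucc) := by
      have e2 : (∏ i ∈ S, mn α β (i.castSucc, Fin.last _)) ^ g =
          ∏ i ∈ S, ∏ _j ∈ Sᶜ, mn α β (i.castSucc, Fin.last _) := by
        rw [← prod_pow]
        refine prod_congr rfl fun i _ => ?_
        rw [prod_const, hSc]
      have e3 : (∏ j ∈ Sᶜ, mn α β (j.castSucc, Fin.last _)) ^ (g + 1) =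
          ∏ _i ∈ S, ∏ j ∈ Sᶜ, mn α β (j.castSucc, Fin.last _) := by
        rw [prod_const, mem_Sp.1 hS]
      have e4 : c ^ ((g + 1) * g) = ∏ _i ∈ S, ∏ _j ∈ Sᶜ, c := by
        rw [prod_const, prod_const, hSc, mem_Sp.1 hS, ← pow_mul, mul_comm]
      rw [e2, e3, e4]
      unfold rs
      simp only [← prod_mul_distrib]
      exact prod_congr rfl fun i _ => prod_congr rfl fun j _ => hbc i j
    have e5 := prod_cross S fun i j => mn α β (i, j)
    rw [e5]
    have e6 : Q = (∏ i ∈ S, mn α β (i.castSucc, Fin.last _)) *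
        ∏ j ∈ Sᶜ, mn α β (j.castSucc, Fin.last _) := (prod_mul_prod_compl _ _).symm
    rw [e6]
    calc rs b S * ((∏ i ∈ S, mn α β (i.castSucc, Fin.last _)) *
          ∏ j ∈ Sᶜ, mn α β (j.castSucc, Fin.last _)) ^ (g + 1)
        = (∏ i ∈ S, mn α β (i.castSucc, Fin.last _)) *
          (rs b S * ((∏ i ∈ S, mn α β (i.castSucc, Fin.last _)) ^ g *
          (∏ j ∈ Sᶜ, mn α β (j.castSucc, Fin.last _)) ^ (g + 1))) := by ring
      _ = _ := by
        rw [e1]
        ring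
  -- the signs
  set e : K := ∏ p ∈ em S ×ˢ (em S)ᶜ, (if p.1 < p.2 then 1 else -1) with he
  have he2 : e ^ 2 = 1 := by
    rw [he, ← prod_pow]
    refine prod_eq_one fun p _ => ?_
    split_ifs <;> ring
  have h2 : ∏ p ∈ em S ×ˢ (em S)ᶜ, mn α β (p.1, p.2) = e * ∏ q ∈ Np (em S), mn α β q := by
    rw [prod_Np (em S) fun q => mn α β q, he, ← prod_mul_distrib]
    refine prod_congr rfl fun p _ => ?_
    unfold srt
    split_ifs
    · rw [one_mul]
    · rw [mn_swap]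
      ring
  have h3 := prod_GN (em S) fun q => mn α β q
  have h4 : ∏ q ∈ Np (em S), mn α β q ≠ 0 := by
    intro h0
    apply hP0
    rw [hP, ← h3, h0, mul_zero]
  have hrs : rs b S ≠ 0 := by
    intro h0
    rw [h0, zero_mul, h2] at h1
    have he0 : e ≠ 0 := by
      intro h0
      rw [h0] at he2
      norm_num at he2
    exact mul_ne_zero (pow_ne_zero _ hc) (mul_ne_zero he0 h4) h1.symm
  refine ⟨e, he2, ?_⟩
  have h5 : W α β S * ∏ q ∈ Np (em S), mn α β q = P := h3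
  rw [h2] at h1
  have h6 : W α β S = P / ∏ q ∈ Np (em S), mn α β q := by
    rw [← h5]
    field_simp
  have he0 : e ≠ 0 := by
    intro h0
    rw [h0] at he2
    norm_num at he2
  have hQg : Q ^ (g + 1) ≠ 0 := pow_ne_zero _ hQ0
  have hcg : c ^ ((g + 1) * g) ≠ 0 := pow_ne_zero _ hc
  set N := ∏ q ∈ Np (em S), mn α β q with hN
  obtain ⟨Y, hY⟩ : ∃ Y, Y = Q ^ (g + 1) := ⟨_, rfl⟩
  obtain ⟨Z, hZ⟩ : ∃ Z, Z = c ^ ((g + 1) * g) := ⟨_, rfl⟩
  rw [← hY] at hQg h1 ⊢
  rw [← hZ] at hcg h1 ⊢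
  rw [h6]
  have h7 : (rs b S)⁻¹ = Y / (Z * (e * N)) := by
    rw [← h1]
    field_simp
  rw [h7]
  field_simp

theorem coord_inj {α β : Fin (2 * g + 1 + 1) → K} (h : ∀ q ∈ prs (2 * g + 1 + 1), mn α β q ≠ 0)
    {b : Fin (2 * g + 1) → K} (hb : Coord α β b) : Function.Injective b := by
  obtain ⟨c, hc, hbc⟩ := hb
  intro i j hij
  by_contra hne
  have h1 := hbc i j
  rw [hij, sub_self, zero_mul] at h1
  have h2 : mn α β (i.castSucc, j.castSucc) ≠ 0 := by
    rcases lt_or_gt_of_ne hne with hlt | hlt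
    · exact h _ (mem_prs.2 (Fin.castSucc_lt_castSucc_iff.2 hlt))
    · have h3 := h (j.castSucc, i.castSucc) (mem_prs.2 (Fin.castSucc_lt_castSucc_iff.2 hlt))
      have h4 := mn_swap α β (i.castSucc, j.castSucc)
      rw [Prod.swap_prod_mk] at h4
      rw [h4] at h3
      exact fun h0 => h3 (by rw [h0, neg_zero])
  exact mul_ne_zero hc h2 h1.symm

theorem prod_smul_sub {ι : Type} (b : ι → K) (c : K) (i : ι) (s : Finset ι) {k : ℕ}
    (hk : s.card = k) : ∏ j ∈ s, (c * b i - c * b j) = c ^ k * ∏ j ∈ s, (b i - b j) := by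
  rw [← hk, ← prod_const, ← prod_mul_distrib]
  exact prod_congr rfl fun j _ => by ring

/-- the linear relations do not change when the points are multiplied by a number -/
theorem linear_smul {b : Fin (2 * g + 1) → K} {c : K} (hc : c ≠ 0)
    {x : Finset (Fin (2 * g + 1)) → K} (h : Linear b x) : Linear (fun i => c * b i) x := by
  intro U hU
  rw [h U hU]
  refine sum_congr rfl fun i hi => ?_
  congr 1
  have e1 := prod_smul_sub b c i Uᶜ (card_co (mem_Sp.1 hU))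
  have e2 := prod_smul_sub b c i (U.erase i) (k := g) (by
    rw [card_erase_of_mem hi, mem_Sp.1 hU]
    rfl)
  rw [e1, e2, mul_div_mul_left _ _ (pow_ne_zero _ hc)]

end Pool.Agent.H433.EV
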